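import Mathlib

set_option autoImplicit false

/-!
Definitions used in the statements about intersections of HD0L sequences.
-/

namespace Pool.Agent.Work.MP_4cd38d_lc

/-- The HD0L sequence `g₂(g₁ⁿ(u))`: the morphism of free monoids given on letters by `g` sends the
word `w` to `w.flatMap g`. -/
def hd0l {A Γ : Type*} (g₁ : A → List A) (g₂ : A → List Γ) (u : List A) (n : ℕ) : List Γ :=
  ((fun w : List A => w.flatMap g₁)^[n] u).flatMap g₂

/-- The incidence matrix of a morphism: `(incidence g) a b` is the number of occurrences of the
letter `b` in the word `g a`. -/
def incidence {A : Type*} [DecidableEq A] (g : A → List A) : Matrix A A ℤ :=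
  Matrix.of fun a b => ((g a).count b : ℤ)

/-- The number of occurrences of the word `x` in the word `w` as a scattered subword: the number
of sets of positions of `w` at which `x` can be read (from left to right). -/
def scatteredCount {Γ : Type*} [DecidableEq Γ] (x w : List Γ) : ℕ := w.sublists.count x

end Pool.Agent.Work.MP_4cd38d_lc
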