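import Mathlib
import Pool.Agent.Work.MP_4cd38d_lc.Defs

set_option autoImplicit false

/-!
The endomorphism of the free algebra attached to a morphism of free monoids, in the coordinates
`s ↦ 1 + p X_s`, and its binomial expansion.
-/

namespace Pool.Agent.Work.MP_4cd38d_lc

open FreeAlgebra

section

variable {A B C : Type*} (p : ℤ)

/-- The element `W w = ∏_{s ∈ w} (1 + p X_s)`. -/
noncomputable def W (w : List A) : FreeAlgebra ℤ A := (w.map fun s => 1 + p • ι ℤ s).prod

/-- The element `P w` with `W w = 1 + p P w`. -/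
noncomputable def P : List A → FreeAlgebra ℤ A
  | [] => 0
  | s :: w => ι ℤ s + P w + p • (ι ℤ s * P w)

lemma W_nil : W p ([] : List A) = 1 := by simp [W]

lemma W_cons (s : A) (w : List A) : W p (s :: w) = (1 + p • ι ℤ s) * W p w := by
  simp [W]

lemma W_append (v w : List A) : W p (v ++ w) = W p v * W p w := by
  simp [W]

lemma W_eq (w : List A) : W p w = 1 + p • P p w := by
  induction w with
  | nil => simp [W, P]
  | cons s w ih =>
    rw [W_cons, ih, P]
    simp only [add_mul, mul_add, one_mul, mul_one, smul_add, smul_mul_assoc, mul_smul_comm]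
    abel

/-- The algebra morphism attached to `g : A → List B`. -/
noncomputable def FF (g : A → List B) : FreeAlgebra ℤ A →ₐ[ℤ] FreeAlgebra ℤ B :=
  lift ℤ fun s => P p (g s)

lemma FF_ι (g : A → List B) (s : A) : FF p g (ι ℤ s) = P p (g s) := by
  simp [FF]

lemma FF_W (g : A → List B) (w : List A) : FF p g (W p w) = W p (w.flatMap g) := by
  induction w with
  | nil => simp [W]
  | cons s w ih =>
    rw [W_cons, map_mul, ih, List.flatMap_cons, W_append, W_eq p (g s)]
    congr 1
    rw [map_add, map_one, map_smul, FF_ι]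

lemma FF_iterate_W (g : A → List A) (w : List A) (n : ℕ) :
    (FF p g)^[n] (W p w) = W p ((fun w : List A => w.flatMap g)^[n] w) := by
  induction n generalizing w with
  | zero => rfl
  | succ n ih =>
    rw [Function.iterate_succ_apply, Function.iterate_succ_apply, FF_W, ih]

end

section

variable {A : Type*} [Fintype A] [DecidableEq A] (p : ℤ)

lemma P_mod (w : List A) :
    ∃ y, P p w = (∑ t, ((w.count t : ℕ) : ℤ) • ι ℤ t) + p • y := by
  induction w with
  | nil => exact ⟨0, by simp [P]⟩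
  | cons s w ih =>
    obtain ⟨y, hy⟩ := ih
    refine ⟨y + ι ℤ s * P p w, ?_⟩
    have h1 : (∑ t, (((s :: w).count t : ℕ) : ℤ) • ι ℤ t : FreeAlgebra ℤ A)
        = ι ℤ s + ∑ t, ((w.count t : ℕ) : ℤ) • ι ℤ t := by
      have : ∀ t, (((s :: w).count t : ℕ) : ℤ) • ι ℤ t =
          ((w.count t : ℕ) : ℤ) • ι ℤ t + if s = t then (ι ℤ t : FreeAlgebra ℤ A) else 0 := by
        intro t
        rw [List.count_cons]
        by_cases h : s = t
        · simp [h, add_smul]
        · simp [h]
      rw [Finset.sum_congr rfl fun t _ => this t, Finset.sum_add_distrib,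
        Finset.sum_ite_eq]
      simp [add_comm]
    rw [P, h1, smul_add]
    nth_rewrite 1 [hy]
    abel

lemma FF_mod (g : A → List A) (x : A) :
    ∃ y, FF p g (ι ℤ x) = (∑ t, incidence g x t • ι ℤ t) + p • y := by
  obtain ⟨y, hy⟩ := P_mod p (g x)
  exact ⟨y, by rw [FF_ι, hy]; rfl⟩

lemma FF_iterate_mod (g : A → List A) (m : ℕ) (x : A) :
    ∃ y, (FF p g)^[m] (ι ℤ x) = (∑ t, (incidence g ^ m) x t • ι ℤ t) + p • y := by
  induction m generalizing x with
  | zero =>
    refine ⟨0, ?_⟩
    simp [Matrix.one_apply]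
  | succ m ih =>
    choose y hy using ih
    obtain ⟨z, hz⟩ := FF_mod p g x
    refine ⟨(∑ t, incidence g x t • y t) + (FF p g)^[m] z, ?_⟩
    rw [Function.iterate_succ_apply, hz]
    let L : Module.End ℤ (FreeAlgebra ℤ A) := (FF p g).toLinearMap
    have hL : ∀ a, (FF p g)^[m] a = (L ^ m) a := by
      intro a; rw [Module.End.pow_apply]; rfl
    have hadd : ∀ a b, (FF p g)^[m] (a + b) = (FF p g)^[m] a + (FF p g)^[m] b := by
      intro a b; simp only [hL, map_add]
    have hsmul : ∀ (c : ℤ) a, (FF p g)^[m] (c • a) = c • (FF p g)^[m] a := by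
      intro c a; simp only [hL, map_smul]
    have hsum : ∀ f : A → FreeAlgebra ℤ A, (FF p g)^[m] (∑ t, f t) = ∑ t, (FF p g)^[m] (f t) := by
      intro f; simp only [hL, map_sum]
    rw [hadd, hsmul, hsum]
    simp_rw [hsmul, hy]
    rw [pow_succ']
    simp only [Matrix.mul_apply, Finset.sum_smul, smul_add, Finset.smul_sum, smul_smul,
      Finset.sum_add_distrib]
    rw [Finset.sum_comm]
    have : ∀ t, (incidence g x t * p) • y t = (p * incidence g x t) • y t := by
      intro t; rw [mul_comm]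
    simp_rw [this]
    abel

end

section

variable {A : Type*} (p : ℤ)

lemma sub_dvd {T : FreeAlgebra ℤ A →ₐ[ℤ] FreeAlgebra ℤ A}
    (hT : ∀ s, ∃ y, T (ι ℤ s) - ι ℤ s = p • y) (x : FreeAlgebra ℤ A) :
    ∃ y, T x - x = p • y := by
  induction x using FreeAlgebra.induction with
  | grade0 r => exact ⟨0, by simp⟩
  | grade1 s => exact hT s
  | mul a b ha hb =>
    obtain ⟨y, hy⟩ := ha
    obtain ⟨z, hz⟩ := hb
    refine ⟨T a * z + y * b, ?_⟩
    rw [map_mul, smul_add, ← mul_smul_comm, ← smul_mul_assoc, ← hy, ← hz]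
    noncomm_ring
  | add a b ha hb =>
    obtain ⟨y, hy⟩ := ha
    obtain ⟨z, hz⟩ := hb
    refine ⟨y + z, ?_⟩
    rw [map_add, smul_add, ← hy, ← hz]
    abel

lemma expansion {T : FreeAlgebra ℤ A →ₐ[ℤ] FreeAlgebra ℤ A}
    (hT : ∀ s, ∃ y, T (ι ℤ s) - ι ℤ s = p • y) (x : FreeAlgebra ℤ A) :
    ∃ D : ℕ → FreeAlgebra ℤ A, ∀ n, T^[n] x =
      ∑ k ∈ Finset.range (n + 1), (n.choose k : ℤ) • (p ^ k • D k) := by
  let L : Module.End ℤ (FreeAlgebra ℤ A) := T.toLinearMap
  let E : Module.End ℤ (FreeAlgebra ℤ A) := L - 1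
  have h1 : ∀ k, ∃ y, (E ^ k) x = p ^ k • y := by
    intro k
    induction k with
    | zero => exact ⟨x, by simp⟩
    | succ k ih =>
      obtain ⟨y, hy⟩ := ih
      obtain ⟨z, hz⟩ := sub_dvd p hT y
      refine ⟨z, ?_⟩
      rw [pow_succ', Module.End.mul_apply, hy, map_smul]
      have : E y = p • z := hz
      rw [this, smul_smul, pow_succ]
  choose D hD using h1
  refine ⟨D, fun n => ?_⟩
  have h2 : L = E + 1 := by simp [E]
  have h3 : T^[n] x = (L ^ n) x := by
    rw [Module.End.pow_apply]; rfl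
  rw [h3, h2, (Commute.one_right E).add_pow, LinearMap.sum_apply]
  apply Finset.sum_congr rfl
  intro k _
  rw [one_pow, mul_one, ← hD k]
  have : ((n.choose k : ℕ) : Module.End ℤ (FreeAlgebra ℤ A)) =
      ((n.choose k : ℤ)) • (1 : Module.End ℤ (FreeAlgebra ℤ A)) := by
    simp
  rw [this, mul_smul_comm, mul_one, LinearMap.smul_apply]

end

end Pool.Agent.Work.MP_4cd38d_lc
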