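import Mathlib

set_option autoImplicit false

/-!
Hansel's lemma: if `b n = ∑_{k ≤ n} C(n,k) p^k d_k` with integers `d_k` and an odd prime `p`, and
`b` has infinitely many zeros, then `b = 0`.
-/

namespace Pool.Agent.Work.MP_4cd38d_lc

open Polynomial

lemma coeff_dvd_of_mul {R : Type*} [CommRing R] (t c : R) (Q : R[X]) (k : ℕ)
    (h : ∀ i, k + 1 ≤ i → c ∣ ((X - C t) * Q).coeff i) : ∀ j, k ≤ j → c ∣ Q.coeff j := by
  intro j hj
  have key : ∀ m j, k ≤ j → Q.natDegree < j + m → c ∣ Q.coeff j := by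
    intro m
    induction m with
    | zero =>
      intro j hj hd
      rw [coeff_eq_zero_of_natDegree_lt (by simpa using hd)]
      exact dvd_zero _
    | succ m ih =>
      intro j hj hd
      have h1 := ih (j + 1) (by omega) (by omega)
      have h2 := h (j + 1) (by omega)
      have h3 : ((X - C t) * Q).coeff (j + 1) = Q.coeff j - t * Q.coeff (j + 1) := by
        rw [sub_mul, coeff_sub, coeff_X_mul, coeff_C_mul]
      have h4 : Q.coeff j = ((X - C t) * Q).coeff (j + 1) + t * Q.coeff (j + 1) := by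
        rw [h3]; ring
      rw [h4]
      exact dvd_add h2 (Dvd.dvd.mul_left h1 t)
  exact key (Q.natDegree + 1) j hj (by omega)

lemma dvd_eval_of_roots {R : Type*} [CommRing R] [IsDomain R] [DecidableEq R] (c : R) :
    ∀ (k : ℕ) (T : Finset R) (P : R[X]), T.card = k → (∀ t ∈ T, P.eval t = 0) →
      (∀ i, k ≤ i → c ∣ P.coeff i) → ∀ x, c ∣ P.eval x := by
  intro k
  induction k with
  | zero =>
    intro T P _ _ h x
    rw [eval_eq_sum_range]
    exact Finset.dvd_sum fun i _ => Dvd.dvd.mul_right (h i (Nat.zero_le _)) _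
  | succ k ih =>
    intro T P hT hr hc x
    obtain ⟨t, ht⟩ : T.Nonempty := by rw [← Finset.card_pos]; omega
    obtain ⟨Q, rfl⟩ := dvd_iff_isRoot.2 (hr t ht)
    have h1 : c ∣ Q.eval x := by
      refine ih (T.erase t) Q (by rw [Finset.card_erase_of_mem ht]; omega) ?_
        (coeff_dvd_of_mul t c Q k hc) x
      intro s hs
      have h2 := hr s (Finset.mem_of_mem_erase hs)
      rw [eval_mul, eval_sub, eval_X, eval_C] at h2
      rcases mul_eq_zero.1 h2 with h3 | h3
      · exact absurd (sub_eq_zero.1 h3) (Finset.ne_of_mem_erase hs)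
      · exact h3
    rw [eval_mul]
    exact Dvd.dvd.mul_left h1 _

lemma factorial_dvd_pow (p : ℕ) [Fact p.Prime] (hp : 3 ≤ p) (j : ℕ) :
    ((j.factorial : ℕ) : ℤ_[p]) ∣ (p : ℤ_[p]) ^ (j / 2) := by
  have hv : padicValNat p j.factorial ≤ j / 2 := by
    have h := sub_one_mul_padicValNat_factorial (p := p) j
    have h2 : 2 * padicValNat p j.factorial ≤ (p - 1) * padicValNat p j.factorial :=
      Nat.mul_le_mul_right _ (by omega)
    omega
  obtain ⟨m, hm⟩ : p ^ padicValNat p j.factorial ∣ j.factorial := pow_padicValNat_dvd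
  have hm' : ¬ p ∣ m := by
    intro hd
    obtain ⟨m', rfl⟩ := hd
    have : p ^ (padicValNat p j.factorial + 1) ∣ j.factorial := ⟨m', by rw [pow_succ, mul_assoc]; exact hm⟩
    exact pow_succ_padicValNat_not_dvd (Nat.factorial_ne_zero j) this
  have hu : IsUnit ((m : ℕ) : ℤ_[p]) := by
    rw [PadicInt.isUnit_iff, PadicInt.norm_natCast_eq_one_iff]
    exact ((Nat.Prime.coprime_iff_not_dvd Fact.out).2 hm')
  obtain ⟨u, hu⟩ := hu
  have h1 : ((j.factorial : ℕ) : ℤ_[p]) = (p : ℤ_[p]) ^ padicValNat p j.factorial * u := by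
    rw [hu]; exact_mod_cast congrArg (Nat.cast (R := ℤ_[p])) hm
  rw [h1]
  exact (Units.mul_right_dvd).2 (pow_dvd_pow _ hv)

theorem hansel (p : ℕ) [Fact p.Prime] (hp : 3 ≤ p) (d b : ℕ → ℤ)
    (hb : ∀ n, b n = ∑ k ∈ Finset.range (n + 1), (n.choose k : ℤ) * ((p : ℤ) ^ k * d k))
    (hz : {n | b n = 0}.Infinite) : ∀ n, b n = 0 := by
  classical
  choose r hr using fun j => factorial_dvd_pow p hp j
  -- `e j * j! = p^j`
  let e : ℕ → ℤ_[p] := fun j => (p : ℤ_[p]) ^ (j - j / 2) * r j
  have he : ∀ j, ((j.factorial : ℕ) : ℤ_[p]) * e j = (p : ℤ_[p]) ^ j := by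
    intro j
    have : (p : ℤ_[p]) ^ j = (p : ℤ_[p]) ^ (j - j / 2) * (p : ℤ_[p]) ^ (j / 2) := by
      rw [← pow_add]; congr 1; omega
    rw [this, hr j]; ring
  let R : ℕ → ℤ_[p][X] := fun n =>
    ∑ j ∈ Finset.range (n + 1), C ((d j : ℤ_[p]) * e j) * descPochhammer ℤ_[p] j
  have hR : ∀ n l, l ≤ n → (R n).eval (l : ℤ_[p]) = ((b l : ℤ) : ℤ_[p]) := by
    intro n l hl
    have h1 : (R n).eval (l : ℤ_[p]) =
        ∑ j ∈ Finset.range (n + 1), (l.choose j : ℤ_[p]) * ((p : ℤ_[p]) ^ j * (d j : ℤ_[p])) := by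
      simp only [R, eval_finset_sum, eval_mul, eval_C]
      apply Finset.sum_congr rfl
      intro j _
      rw [descPochhammer_eval_eq_descFactorial, Nat.descFactorial_eq_factorial_mul_choose,
        ← he j]
      push_cast
      ring
    rw [h1, hb l]
    push_cast
    symm
    apply Finset.sum_subset
    · intro j hj; rw [Finset.mem_range] at *; omega
    · intro j _ hj
      rw [Finset.mem_range] at hj
      rw [Nat.choose_eq_zero_of_lt (by omega)]
      simp
  have hc : ∀ n k i, k ≤ i → (p : ℤ_[p]) ^ (k / 2) ∣ (R n).coeff i := by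
    intro n k i hki
    simp only [R, finset_sum_coeff, coeff_C_mul]
    apply Finset.dvd_sum
    intro j _
    rcases lt_or_ge j i with hji | hji
    · rw [coeff_eq_zero_of_natDegree_lt (by rw [descPochhammer_natDegree]; exact hji), mul_zero]
      exact dvd_zero _
    · apply Dvd.dvd.mul_right
      apply Dvd.dvd.mul_left
      apply Dvd.dvd.mul_right
      exact pow_dvd_pow _ (by omega)
  intro l
  have hdiv : ∀ k : ℕ, ((p : ℤ) ^ k) ∣ b l := by
    intro k
    obtain ⟨T, hT, hTc⟩ := hz.exists_subset_card_eq (2 * k)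
    let n := l + T.sup id
    have h1 : (p : ℤ_[p]) ^ (2 * k / 2) ∣ (R n).eval (l : ℤ_[p]) := by
      refine dvd_eval_of_roots _ (2 * k) (T.image (Nat.cast : ℕ → ℤ_[p])) (R n) ?_ ?_
        (hc n (2 * k)) _
      · rw [Finset.card_image_of_injective _ Nat.cast_injective, hTc]
      · intro t ht
        obtain ⟨s, hs, rfl⟩ := Finset.mem_image.1 ht
        have hs' : s ≤ n := le_trans (Finset.le_sup (f := id) hs) (Nat.le_add_left _ _)
        rw [hR n s hs']
        have : b s = 0 := hT hs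
        rw [this]; simp
    rw [hR n l (Nat.le_add_right _ _), Nat.mul_div_cancel_left _ (by norm_num),
      PadicInt.pow_p_dvd_int_iff] at h1
    exact h1
  by_contra hne
  have hp1 : 1 < p := by omega
  obtain ⟨k, hk⟩ := pow_unbounded_of_one_lt (b l).natAbs hp1
  have h2 := Int.natAbs_dvd_natAbs.2 (hdiv k)
  rw [Int.natAbs_pow, Int.natAbs_natCast] at h2
  have h3 := Nat.le_of_dvd (Int.natAbs_pos.2 hne) h2
  omega

end Pool.Agent.Work.MP_4cd38d_lc
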