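import Mathlib
import Pool.Agent.Work.MP_4cd38d_lc.Defs
import Pool.Agent.Work.MP_4cd38d_lc.Free
import Pool.Agent.Work.MP_4cd38d_lc.Hansel

set_option autoImplicit false

namespace Pool.Agent.Work.MP_4cd38d_lc

open FreeAlgebra

section

variable {Γ : Type*} [DecidableEq Γ]

/-- The operator attached to a letter. -/
def Z (a : Γ) : Module.End ℤ (List Γ → ℤ) where
  toFun φ := fun y => match y with
    | [] => 0
    | b :: y' => if b = a then φ y' else 0
  map_add' φ ψ := by
    funext y
    cases y with
    | nil => simp
    | cons b y => by_cases h : b = a <;> simp [h]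
  map_smul' c φ := by
    funext y
    cases y with
    | nil => simp
    | cons b y => by_cases h : b = a <;> simp [h]

lemma Z_nil (a : Γ) (φ : List Γ → ℤ) : Z a φ [] = 0 := rfl

lemma Z_cons (a b : Γ) (y : List Γ) (φ : List Γ → ℤ) :
    Z a φ (b :: y) = if b = a then φ y else 0 := rfl

/-- The representation of the free algebra on functions on words. -/
noncomputable def ev (Γ : Type*) [DecidableEq Γ] :
    FreeAlgebra ℤ Γ →ₐ[ℤ] Module.End ℤ (List Γ → ℤ) := lift ℤ Z

/-- The indicator function of the empty word. -/
def dlt (Γ : Type*) [DecidableEq Γ] : List Γ → ℤ := fun y => if y = [] then 1 else 0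

lemma scatteredCount_nil (x : List Γ) : scatteredCount x [] = if x = [] then 1 else 0 := by
  unfold scatteredCount
  simp only [List.sublists_nil]
  rw [List.count_singleton]
  cases x with
  | nil => rfl
  | cons b x => rfl

lemma scatteredCount_nil_left (w : List Γ) : scatteredCount [] w = 1 := by
  unfold scatteredCount
  rw [(List.sublists_perm_sublists' w).count_eq]
  induction w with
  | nil => simp
  | cons a w ih =>
    rw [List.sublists'_cons, List.count_append, ih]
    have : List.count [] (List.map (List.cons a) w.sublists') = 0 := by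
      apply List.count_eq_zero_of_not_mem
      simp
    omega

lemma scatteredCount_cons (b : Γ) (x : List Γ) (a : Γ) (w : List Γ) :
    scatteredCount (b :: x) (a :: w) =
      scatteredCount (b :: x) w + if b = a then scatteredCount x w else 0 := by
  unfold scatteredCount
  simp only [(List.sublists_perm_sublists' _).count_eq]
  rw [List.sublists'_cons, List.count_append]
  congr 1
  by_cases h : b = a
  · subst h
    rw [if_pos rfl, List.count_map_of_injective _ _ (List.cons_injective)]
  · rw [if_neg h]
    apply List.count_eq_zero_of_not_mem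
    simp only [List.mem_map, not_exists, not_and]
    intro y _ hy
    simp at hy
    exact h hy.1.symm

lemma ev_W (p : ℤ) (w x : List Γ) :
    ev Γ (W p w) (dlt Γ) x = p ^ x.length * (scatteredCount x w : ℤ) := by
  induction w generalizing x with
  | nil =>
    rw [W_nil, map_one, scatteredCount_nil]
    by_cases h : x = []
    · simp [dlt, h]
    · simp [dlt, h]
  | cons a w ih =>
    rw [W_cons, map_mul, map_add, map_one, map_smul]
    have h1 : ev Γ (ι ℤ a) = Z a := by simp [ev]
    rw [h1, Module.End.mul_apply, LinearMap.add_apply, Module.End.one_apply, LinearMap.smul_apply,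
      Pi.add_apply, Pi.smul_apply, ih]
    cases x with
    | nil => rw [Z_nil, scatteredCount_nil_left, scatteredCount_nil_left]; simp
    | cons b x =>
      rw [Z_cons, scatteredCount_cons, ih x]
      by_cases h : b = a
      · rw [if_pos h, if_pos h]
        simp only [List.length_cons, smul_eq_mul]
        push_cast
        ring
      · rw [if_neg h, if_neg h]
        simp

/-- The scattered subword counts determine the word. -/
lemma eq_of_scatteredCount {w w' : List Γ} (h : ∀ x, scatteredCount x w = scatteredCount x w') :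
    w = w' := by
  have key : ∀ v v' : List Γ, (∀ x, scatteredCount x v = scatteredCount x v') → v.Sublist v' := by
    intro v v' hv
    rw [← List.mem_sublists]
    apply List.count_pos_iff.1
    have h1 : 0 < scatteredCount v v := by
      unfold scatteredCount
      apply List.count_pos_iff.2
      rw [List.mem_sublists]
    rw [hv v] at h1
    exact h1
  exact (key w w' h).antisymm (key w' w fun x => (h x).symm)

end

/-- Binomial expansion of scattered subword counts along an HD0L sequence. -/
lemma count_expansion {A Γ : Type*} [Fintype A] [DecidableEq A] [DecidableEq Γ] (p : ℤ) (N : ℕ)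
    (g₁ : A → List A) (g₂ : A → List Γ) (u : List A)
    (hN : ∀ s t, p ∣ (incidence g₁ ^ N) s t - (1 : Matrix A A ℤ) s t) (c : ℕ) (x : List Γ) :
    ∃ d : ℕ → ℤ, ∀ n, p ^ x.length * (scatteredCount x (hd0l g₁ g₂ u (N * n + c)) : ℤ) =
      ∑ k ∈ Finset.range (n + 1), (n.choose k : ℤ) * (p ^ k * d k) := by
  let T : FreeAlgebra ℤ A →ₐ[ℤ] FreeAlgebra ℤ A := (FF p g₁) ^ N
  have hTN : ⇑T = (FF p g₁)^[N] := AlgHom.coe_pow _ _
  have hT : ∀ s, ∃ y, T (ι ℤ s) - ι ℤ s = p • y := by
    intro s
    choose q hq using hN
    obtain ⟨y, hy⟩ := FF_iterate_mod p g₁ N s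
    refine ⟨(∑ t, q s t • ι ℤ t) + y, ?_⟩
    rw [hTN, hy]
    have h1 : ∀ t, (incidence g₁ ^ N) s t • (ι ℤ t : FreeAlgebra ℤ A) =
        (1 : Matrix A A ℤ) s t • ι ℤ t + p • (q s t • ι ℤ t) := by
      intro t
      rw [smul_smul, ← add_smul, ← hq s t]
      congr 1
      ring
    simp_rw [h1, Finset.sum_add_distrib, ← Finset.smul_sum, Matrix.one_apply, ite_smul, one_smul,
      zero_smul, Finset.sum_ite_eq, Finset.mem_univ, if_true, smul_add]
    abel
  obtain ⟨D, hD⟩ := expansion p hT (W p ((fun w : List A => w.flatMap g₁)^[c] u))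
  refine ⟨fun k => ev Γ (FF p g₂ (D k)) (dlt Γ) x, fun n => ?_⟩
  have h1 : T^[n] (W p ((fun w : List A => w.flatMap g₁)^[c] u)) =
      W p ((fun w : List A => w.flatMap g₁)^[N * n + c] u) := by
    rw [hTN, ← Function.iterate_mul, FF_iterate_W, ← Function.iterate_add_apply]
  rw [← ev_W]
  unfold hd0l
  rw [← FF_W, ← h1, hD n, map_sum, map_sum, LinearMap.sum_apply, Finset.sum_apply]
  apply Finset.sum_congr rfl
  intro k _
  rw [map_smul, map_smul, map_smul, map_smul, LinearMap.smul_apply, LinearMap.smul_apply,
    Pi.smul_apply, Pi.smul_apply, smul_eq_mul, smul_eq_mul]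

end Pool.Agent.Work.MP_4cd38d_lc
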