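import Mathlib
import Pool.Agent.Work.MP_4cd38d_lc.Count

set_option autoImplicit false

namespace Pool.Agent.Work.MP_4cd38d_lc

section

variable {A : Type*} [Fintype A] [DecidableEq A]

/-- If `det M ≠ 0` then for every prime `p` not dividing `det M` some positive power of `M` is
congruent to the identity modulo `p`. -/
lemma exists_pow_cong (M : Matrix A A ℤ) (p : ℕ) [Fact p.Prime] (hp : ¬ (p : ℤ) ∣ M.det) :
    ∃ N, 0 < N ∧ ∀ s t, (p : ℤ) ∣ (M ^ N) s t - (1 : Matrix A A ℤ) s t := by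
  let f : ℤ →+* ZMod p := Int.castRingHom (ZMod p)
  have h1 : IsUnit (f.mapMatrix M) := by
    rw [Matrix.isUnit_iff_isUnit_det, ← RingHom.map_det, isUnit_iff_ne_zero]
    intro h
    apply hp
    exact (ZMod.intCast_zmod_eq_zero_iff_dvd _ _).1 h
  obtain ⟨u, hu⟩ := h1
  refine ⟨orderOf u, orderOf_pos u, fun s t => ?_⟩
  have h2 : (f.mapMatrix M) ^ orderOf u = 1 := by
    rw [← hu, ← Units.val_pow_eq_pow_val, pow_orderOf_eq_one, Units.val_one]
  have h3 : f.mapMatrix (M ^ orderOf u) = f.mapMatrix (1 : Matrix A A ℤ) := by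
    rw [map_pow, h2, map_one]
  have h4 := congrFun (congrFun h3 s) t
  rw [← ZMod.intCast_zmod_eq_zero_iff_dvd, Int.cast_sub, sub_eq_zero]
  exact h4

lemma cong_mul (M : Matrix A A ℤ) (p : ℤ) {N : ℕ}
    (h : ∀ s t, p ∣ (M ^ N) s t - (1 : Matrix A A ℤ) s t) (k : ℕ) :
    ∀ s t, p ∣ (M ^ (N * k)) s t - (1 : Matrix A A ℤ) s t := by
  induction k with
  | zero => intro s t; simp
  | succ k ih =>
    intro s t
    have h1 : (M ^ (N * (k + 1))) s t - (1 : Matrix A A ℤ) s t =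
        (∑ r, ((M ^ (N * k)) s r - (1 : Matrix A A ℤ) s r) * (M ^ N) r t) +
          ((M ^ N) s t - (1 : Matrix A A ℤ) s t) := by
      rw [mul_add, mul_one, pow_add, Matrix.mul_apply]
      simp only [sub_mul, Finset.sum_sub_distrib]
      have : ∑ r, (1 : Matrix A A ℤ) s r * (M ^ N) r t = (M ^ N) s t := by
        rw [← Matrix.mul_apply, one_mul]
      rw [this]
      ring
    rw [h1]
    exact dvd_add (Finset.dvd_sum fun r _ => Dvd.dvd.mul_right (ih s r) _) (h s t)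

end

lemma exists_odd_prime (a : ℤ) (ha : a ≠ 0) : ∃ p : ℕ, p.Prime ∧ p ≠ 2 ∧ ¬ (p : ℤ) ∣ a := by
  obtain ⟨p, hp, hpp⟩ := Nat.exists_infinite_primes (a.natAbs + 3)
  refine ⟨p, hpp, by omega, fun h => ?_⟩
  have := Nat.le_of_dvd (Int.natAbs_pos.2 ha) (Int.natCast_dvd.1 h)
  omega

variable {A B Γ : Type*} [Fintype A] [DecidableEq A] [Fintype B] [DecidableEq B] [DecidableEq Γ]

lemma dichotomy (g₁ : A → List A) (g₂ : A → List Γ) (u : List A)
    (h₁ : B → List B) (h₂ : B → List Γ) (v : List B) (p N : ℕ) (hp : p.Prime) (hp2 : p ≠ 2)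
    (hg : ∀ s t, (p : ℤ) ∣ (incidence g₁ ^ N) s t - (1 : Matrix A A ℤ) s t)
    (hh : ∀ s t, (p : ℤ) ∣ (incidence h₁ ^ N) s t - (1 : Matrix B B ℤ) s t) (c : ℕ) (x : List Γ)
    (hinf : {n | scatteredCount x (hd0l g₁ g₂ u (N * n + c)) =
      scatteredCount x (hd0l h₁ h₂ v (N * n + c))}.Infinite) (n : ℕ) :
    scatteredCount x (hd0l g₁ g₂ u (N * n + c)) =
      scatteredCount x (hd0l h₁ h₂ v (N * n + c)) := by
  haveI : Fact p.Prime := ⟨hp⟩
  obtain ⟨d, hd⟩ := count_expansion (p : ℤ) N g₁ g₂ u hg c x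
  obtain ⟨e, he⟩ := count_expansion (p : ℤ) N h₁ h₂ v hh c x
  have hp0 : ((p : ℤ) ^ x.length) ≠ 0 := pow_ne_zero _ (by exact_mod_cast hp.ne_zero)
  have h := hansel p (by have := hp.two_le; omega) (fun k => d k - e k)
    (fun n => (p : ℤ) ^ x.length * (scatteredCount x (hd0l g₁ g₂ u (N * n + c)) : ℤ) -
      (p : ℤ) ^ x.length * (scatteredCount x (hd0l h₁ h₂ v (N * n + c)) : ℤ))
    (by
      intro n
      rw [hd n, he n, ← Finset.sum_sub_distrib]
      apply Finset.sum_congr rfl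
      intro k _
      ring)
    (by
      refine hinf.mono fun n hn => ?_
      simp only [Set.mem_setOf_eq] at hn ⊢
      rw [hn]; ring) n
  have h2 := mul_left_cancel₀ hp0 (sub_eq_zero.1 h)
  exact_mod_cast h2

lemma dichotomy_words (g₁ : A → List A) (g₂ : A → List Γ) (u : List A)
    (h₁ : B → List B) (h₂ : B → List Γ) (v : List B) (p N : ℕ) (hp : p.Prime) (hp2 : p ≠ 2)
    (hg : ∀ s t, (p : ℤ) ∣ (incidence g₁ ^ N) s t - (1 : Matrix A A ℤ) s t)
    (hh : ∀ s t, (p : ℤ) ∣ (incidence h₁ ^ N) s t - (1 : Matrix B B ℤ) s t) (c : ℕ)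
    (hinf : {n | hd0l g₁ g₂ u (N * n + c) = hd0l h₁ h₂ v (N * n + c)}.Infinite) (n : ℕ) :
    hd0l g₁ g₂ u (N * n + c) = hd0l h₁ h₂ v (N * n + c) := by
  apply eq_of_scatteredCount
  intro x
  refine dichotomy g₁ g₂ u h₁ h₂ v p N hp hp2 hg hh c x (hinf.mono fun n hn => ?_) n
  simp only [Set.mem_setOf_eq] at hn ⊢
  rw [hn]

lemma exists_p_N (g₁ : A → List A) (h₁ : B → List B)
    (hg : (incidence g₁).det ≠ 0) (hh : (incidence h₁).det ≠ 0) :
    ∃ p N : ℕ, p.Prime ∧ p ≠ 2 ∧ 0 < N ∧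
      (∀ s t, (p : ℤ) ∣ (incidence g₁ ^ N) s t - (1 : Matrix A A ℤ) s t) ∧
      (∀ s t, (p : ℤ) ∣ (incidence h₁ ^ N) s t - (1 : Matrix B B ℤ) s t) := by
  obtain ⟨p, hp, hp2, hpd⟩ := exists_odd_prime _ (mul_ne_zero hg hh)
  haveI : Fact p.Prime := ⟨hp⟩
  obtain ⟨N₁, hN₁, h1⟩ := exists_pow_cong (incidence g₁) p
    fun h => hpd (Dvd.dvd.mul_right h _)
  obtain ⟨N₂, hN₂, h2⟩ := exists_pow_cong (incidence h₁) p
    fun h => hpd (Dvd.dvd.mul_left h _)
  refine ⟨p, N₁ * N₂, hp, hp2, Nat.mul_pos hN₁ hN₂, cong_mul _ _ h1 N₂, ?_⟩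
  rw [mul_comm]
  exact cong_mul _ _ h2 N₁

/-- Finite certificates for disjointness. -/
lemma certificate (g₁ : A → List A) (g₂ : A → List Γ) (u : List A)
    (h₁ : B → List B) (h₂ : B → List Γ) (v : List B)
    (hg : (incidence g₁).det ≠ 0) (hh : (incidence h₁).det ≠ 0)
    (hE : ∀ n, hd0l g₁ g₂ u n ≠ hd0l h₁ h₂ v n) :
    ∃ X : Finset (List Γ), ∀ n, ∃ x ∈ X,
      scatteredCount x (hd0l g₁ g₂ u n) ≠ scatteredCount x (hd0l h₁ h₂ v n) := by
  classical
  obtain ⟨p, N, hp, hp2, hN, h1, h2⟩ := exists_p_N g₁ h₁ hg hh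
  have hsep : ∀ n, ∃ x, scatteredCount x (hd0l g₁ g₂ u n) ≠ scatteredCount x (hd0l h₁ h₂ v n) := by
    intro n
    by_contra hcon
    push Not at hcon
    exact hE n (eq_of_scatteredCount hcon)
  choose x hx using hsep
  have hfin : ∀ c, {n | scatteredCount (x c) (hd0l g₁ g₂ u (N * n + c)) =
      scatteredCount (x c) (hd0l h₁ h₂ v (N * n + c))}.Finite := by
    intro c
    by_contra hcon
    have := dichotomy g₁ g₂ u h₁ h₂ v p N hp hp2 h1 h2 c (x c) hcon 0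
    rw [mul_zero, zero_add] at this
    exact hx c this
  refine ⟨(Finset.range N).biUnion fun c =>
    insert (x c) ((hfin c).toFinset.image fun n => x (N * n + c)), fun n => ?_⟩
  have hc : n % N < N := Nat.mod_lt _ hN
  have hn : N * (n / N) + n % N = n := Nat.div_add_mod n N
  by_cases h : scatteredCount (x (n % N)) (hd0l g₁ g₂ u n) =
      scatteredCount (x (n % N)) (hd0l h₁ h₂ v n)
  · refine ⟨x n, ?_, hx n⟩
    rw [Finset.mem_biUnion]
    refine ⟨n % N, Finset.mem_range.2 hc, ?_⟩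
    apply Finset.mem_insert_of_mem
    rw [Finset.mem_image]
    refine ⟨n / N, ?_, by rw [hn]⟩
    rw [Set.Finite.mem_toFinset, Set.mem_setOf_eq, hn]
    exact h
  · refine ⟨x (n % N), ?_, h⟩
    rw [Finset.mem_biUnion]
    exact ⟨n % N, Finset.mem_range.2 hc, Finset.mem_insert_self _ _⟩

end Pool.Agent.Work.MP_4cd38d_lc
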