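import Mathlib
import Pool.Agent.Work.MP_4cd38d_lc.Defs

set_option autoImplicit false

/-!
Definitions for the reduction of intersection problems of HD0L sequences to Skolem's problem.
-/

namespace Pool.Agent.Work.MP_4cd38d_lc

/-- An HD0L system over the natural numbers, as in the frozen statement of the problem: a start word
`S.1`, the table `S.2.1` of letter images of the first morphism and the table `S.2.2` of letter
images of the second one (letters without entry are erased). -/
abbrev HSystem : Type := List ℕ × List (List ℕ) × List (List ℕ)

/-- The `n`-th term of the HD0L sequence of a system. -/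
def term (S : HSystem) (n : ℕ) : List ℕ :=
  ((fun w : List ℕ => w.flatMap (fun a => S.2.1.getD a []))^[n] S.1).flatMap
    (fun a => S.2.2.getD a [])

/-- The system `S` has nonsingular incidence matrix: with `k` the number of entries of the table
`S.2.1`, only letters `< k` occur in the start word and in this table, and the `k × k` matrix of
letter numbers `|S.2.1 i|_j` has nonzero determinant. -/
def Nonsingular (S : HSystem) : Prop :=
  (∀ a ∈ S.1, a < S.2.1.length) ∧ (∀ w ∈ S.2.1, ∀ a ∈ w, a < S.2.1.length) ∧
    (Matrix.of fun i j : Fin S.2.1.length => (((S.2.1.getD i []).count (j : ℕ) : ℕ) : ℤ)).det ≠ 0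

/-- One step of the linear recurrence with coefficients `c`: the window `s = [s₀, …, s_{d-1}]` of
the sequence is replaced by `[s₁, …, s_{d-1}, c₀ s₀ + ⋯ + c_{d-1} s_{d-1}]`. -/
def lrsStep (c s : List ℤ) : List ℤ := s.tail ++ [(List.zipWith (· * ·) c s).sum]

/-- The linear recurrence sequence with coefficients `c` and initial values `a` (two lists of the
same length `d > 0`): `s_{n+d} = c₀ s_n + ⋯ + c_{d-1} s_{n+d-1}`. -/
def lrs (c a : List ℤ) (n : ℕ) : ℤ := ((lrsStep c)^[n] a).headI

end Pool.Agent.Work.MP_4cd38d_lc
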