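import Mathlib
import Pool.Agent.Work.MP_4cd38d_lc.Defs
import Pool.Agent.Work.MP_4cd38d_lc.Count

set_option autoImplicit false

/-!
Scattered subword counts along HD0L sequences satisfy linear recurrences, with an explicit bound on
the order.
-/

namespace Pool.Agent.Work.MP_4cd38d_lc

section

variable {C : Type*} [DecidableEq C]

/-- Scattered subword count as an integer valued function. -/
def cnt (z : List C) : List C → ℤ := fun w => (scatteredCount z w : ℤ)

/-- Span of the counts of words of length at most `r`. -/
def SS (C : Type*) [DecidableEq C] (r : ℕ) : Submodule ℤ (List C → ℤ) :=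
  Submodule.span ℤ {f | ∃ z : List C, z.length ≤ r ∧ f = cnt z}

lemma SS_mono {r r' : ℕ} (h : r ≤ r') : SS C r ≤ SS C r' := by
  apply Submodule.span_mono
  rintro f ⟨z, hz, rfl⟩
  exact ⟨z, hz.trans h, rfl⟩

/-- Summation over the positions of a letter. -/
def Lop (s : C) (φ : List C → ℤ) : List C → ℤ
  | [] => 0
  | t :: w => Lop s φ w + if s = t then φ w else 0

lemma Lop_add (s : C) (φ ψ : List C → ℤ) : Lop s (φ + ψ) = Lop s φ + Lop s ψ := by
  funext w
  induction w with
  | nil => simp [Lop]
  | cons t w ih =>
    rw [Pi.add_apply] at ih ⊢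
    simp only [Lop, ih, Pi.add_apply]
    by_cases h : s = t
    · simp [h]; ring
    · simp [h]

lemma Lop_smul (s : C) (c : ℤ) (φ : List C → ℤ) : Lop s (c • φ) = c • Lop s φ := by
  funext w
  induction w with
  | nil => simp [Lop]
  | cons t w ih =>
    rw [Pi.smul_apply] at ih ⊢
    simp only [Lop, ih, Pi.smul_apply, smul_eq_mul]
    by_cases h : s = t
    · simp [h]; ring
    · simp [h]

lemma Lop_cnt (s : C) (z : List C) : Lop s (cnt z) = cnt (s :: z) := by
  funext w
  induction w with
  | nil => simp [Lop, cnt, scatteredCount_nil]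
  | cons t w ih =>
    simp only [Lop, ih, cnt, scatteredCount_cons]
    push_cast
    rfl

lemma Lop_zero (s : C) : Lop s (0 : List C → ℤ) = 0 := by
  have := Lop_smul s 0 (0 : List C → ℤ)
  simpa using this

lemma Lop_mem (s : C) {r : ℕ} {φ : List C → ℤ} (hφ : φ ∈ SS C r) : Lop s φ ∈ SS C (r + 1) := by
  induction hφ using Submodule.span_induction with
  | mem f hf =>
    obtain ⟨z, hz, rfl⟩ := hf
    rw [Lop_cnt]
    exact Submodule.subset_span ⟨s :: z, by simpa using hz, rfl⟩
  | zero => rw [Lop_zero]; exact Submodule.zero_mem _
  | add f g _ _ hf hg => rw [Lop_add]; exact Submodule.add_mem _ hf hg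
  | smul c f _ hf => rw [Lop_smul]; exact Submodule.smul_mem _ _ hf

end

section

variable {C D : Type*} [DecidableEq C] [DecidableEq D]

lemma scatteredCount_append (y v w : List D) :
    scatteredCount y (v ++ w) = ∑ i ∈ Finset.range (y.length + 1),
      scatteredCount (y.take i) v * scatteredCount (y.drop i) w := by
  induction v generalizing y with
  | nil =>
    rw [Finset.sum_range_succ']
    simp only [List.nil_append, List.take_zero, List.drop_zero, scatteredCount_nil_left, one_mul]
    have : ∑ i ∈ Finset.range y.length, scatteredCount (List.take (i + 1) y) [] *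
        scatteredCount (List.drop (i + 1) y) w = 0 := by
      apply Finset.sum_eq_zero
      intro i hi
      rw [scatteredCount_nil, if_neg, zero_mul]
      intro h
      have := congrArg List.length h
      rw [List.length_take, Finset.mem_range] at *
      simp only [List.length_nil] at this
      omega
    omega
  | cons a v ih =>
    cases y with
    | nil => simp [scatteredCount_nil_left]
    | cons b y =>
      rw [List.cons_append, scatteredCount_cons, ih (b :: y), ih y, Finset.sum_range_succ' _ (b :: y).length]
      have h1 : ∑ i ∈ Finset.range ((b :: y).length + 1),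
          scatteredCount ((b :: y).take i) (a :: v) * scatteredCount ((b :: y).drop i) w =
          ∑ i ∈ Finset.range ((b :: y).length),
            scatteredCount (b :: y.take i) (a :: v) * scatteredCount (y.drop i) w +
            scatteredCount (b :: y) w := by
        rw [Finset.sum_range_succ']
        simp [scatteredCount_nil_left]
      rw [h1]
      simp only [List.take_succ_cons, List.drop_succ_cons, List.take_zero, List.drop_zero,
        scatteredCount_nil_left, one_mul, List.length_cons, scatteredCount_cons, add_mul,
        Finset.sum_add_distrib]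
      by_cases h : b = a
      · simp only [h, if_true]; ring
      · simp only [h, if_false, zero_mul, Finset.sum_const_zero]; ring

variable [Fintype C]

/-- The count of `y` in the image of a word is a combination of counts of shorter words. -/
lemma cnt_flatMap_mem (g : C → List D) (y : List D) :
    (fun w : List C => (scatteredCount y (w.flatMap g) : ℤ)) ∈ SS C y.length := by
  induction hy : y.length using Nat.strong_induction_on generalizing y with
  | _ r ih =>
  subst hy
  let h : C → (List C → ℤ) := fun s => ∑ i ∈ Finset.range y.length,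
    (scatteredCount (y.take (i + 1)) (g s) : ℤ) •
      fun w : List C => (scatteredCount (y.drop (i + 1)) (w.flatMap g) : ℤ)
  have hh : ∀ s, Lop s (h s) ∈ SS C y.length := by
    intro s
    rcases Nat.eq_zero_or_pos y.length with h0 | hpos
    · have : h s = 0 := by simp [h, h0]
      rw [this, Lop_zero]
      exact Submodule.zero_mem _
    · have h1 : h s ∈ SS C (y.length - 1) := by
        apply Submodule.sum_mem
        intro i hi
        apply Submodule.smul_mem
        have h2 : (y.drop (i + 1)).length ≤ y.length - 1 := by
          rw [List.length_drop]; omega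
        refine SS_mono h2 (ih _ ?_ (y.drop (i + 1)) rfl)
        rw [List.length_drop]; omega
      have h2 := Lop_mem s h1
      rwa [Nat.sub_add_cancel hpos] at h2
  have key : (fun w : List C => (scatteredCount y (w.flatMap g) : ℤ)) =
      (scatteredCount y [] : ℤ) • cnt [] + ∑ s, Lop s (h s) := by
    funext w
    rw [Pi.add_apply, Pi.smul_apply, Finset.sum_apply, smul_eq_mul]
    have hc : cnt ([] : List C) w = 1 := by simp [cnt, scatteredCount_nil_left]
    rw [hc, mul_one]
    clear hc
    induction w with
    | nil => simp [Lop]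
    | cons t w ihw =>
      rw [List.flatMap_cons, scatteredCount_append, Finset.sum_range_succ']
      simp only [List.take_zero, List.drop_zero, scatteredCount_nil_left, one_mul, Lop,
        Finset.sum_add_distrib]
      rw [← add_assoc, ← ihw]
      push_cast
      rw [add_comm]
      congr 1
      rw [Finset.sum_eq_single t]
      · simp [h]
      · intro s _ hs; rw [if_neg hs]
      · intro ht; exact absurd (Finset.mem_univ t) ht
  rw [key]
  apply Submodule.add_mem
  · apply Submodule.smul_mem
    exact Submodule.subset_span ⟨[], Nat.zero_le _, rfl⟩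
  · exact Submodule.sum_mem _ fun s _ => hh s

end

/-- Powers of an integer matrix satisfy the characteristic recurrence. -/
lemma exists_matrix_recurrence {ι : Type*} [Fintype ι] [DecidableEq ι] (Q : ι → ι → ℤ) :
    ∃ (a : ℕ → ι → ι → ℤ) (q : ℕ → ℤ), (∀ i j, a 0 i j = if i = j then 1 else 0) ∧
      (∀ n i j, a (n + 1) i j = ∑ l, Q i l * a n l j) ∧
      ∀ n i j, a (n + Fintype.card ι) i j =
        ∑ k ∈ Finset.range (Fintype.card ι), q k * a (n + k) i j := by
  obtain ⟨A, hAQ⟩ : ∃ A : Matrix ι ι ℤ, ∀ i j, A i j = Q i j := ⟨Matrix.of Q, fun _ _ => rfl⟩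
  have hp : Polynomial.aeval A A.charpoly = 0 := Matrix.aeval_self_charpoly A
  have hdeg : A.charpoly.natDegree = Fintype.card ι := Matrix.charpoly_natDegree_eq_dim A
  have hmon : A.charpoly.Monic := Matrix.charpoly_monic A
  generalize A.charpoly = p at hp hdeg hmon
  have hA : ∀ n, A ^ (n + Fintype.card ι) =
      ∑ k ∈ Finset.range (Fintype.card ι), (-p.coeff k) • A ^ (n + k) := by
    intro n
    rw [Polynomial.aeval_eq_sum_range, hdeg, Finset.sum_range_succ] at hp
    have h1 : p.coeff (Fintype.card ι) = 1 := by rw [← hdeg]; exact hmon.coeff_natDegree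
    rw [h1, one_smul] at hp
    have h2 : A ^ Fintype.card ι = -∑ k ∈ Finset.range (Fintype.card ι), p.coeff k • A ^ k := by
      rw [eq_neg_iff_add_eq_zero, add_comm]; exact hp
    rw [pow_add, h2, mul_neg, Finset.mul_sum, ← Finset.sum_neg_distrib]
    apply Finset.sum_congr rfl
    intro k _
    rw [mul_smul_comm, neg_smul, pow_add]
  refine ⟨fun n i j => (A ^ n) i j, fun k => -p.coeff k, ?_, ?_, ?_⟩
  · intro i j
    change (A ^ 0) i j = _
    rw [pow_zero]
    exact Matrix.one_apply
  · intro n i j
    change (A ^ (n + 1)) i j = ∑ l, Q i l * (A ^ n) l j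
    rw [pow_succ', Matrix.mul_apply]
    exact Finset.sum_congr rfl fun l _ => by rw [hAQ]
  · intro n i j
    change (A ^ (n + Fintype.card ι)) i j =
      ∑ k ∈ Finset.range (Fintype.card ι), -p.coeff k * (A ^ (n + k)) i j
    rw [hA, Matrix.sum_apply]
    exact Finset.sum_congr rfl fun k _ => by rw [Matrix.smul_apply, smul_eq_mul]

/-- Linear algebra: a function in a `T`-stable span of a finite family satisfies a monic linear
recurrence of order the size of the family. -/
lemma exists_recurrence {M : Type*} {ι : Type*} [Fintype ι]
    [DecidableEq ι] (T : Module.End ℤ (M → ℤ)) (b : ι → M → ℤ)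
    (hT : ∀ i, T (b i) ∈ Submodule.span ℤ (Set.range b)) (f : M → ℤ)
    (hf : f ∈ Submodule.span ℤ (Set.range b)) :
    ∃ q : ℕ → ℤ, ∀ n, (T ^ (n + Fintype.card ι)) f =
      ∑ k ∈ Finset.range (Fintype.card ι), q k • (T ^ (n + k)) f := by
  choose Q hQ using fun i => (Submodule.mem_span_range_iff_exists_fun ℤ).1 (hT i)
  obtain ⟨y, hy⟩ := (Submodule.mem_span_range_iff_exists_fun ℤ).1 hf
  obtain ⟨a, q, ha0, hasucc, harec⟩ := exists_matrix_recurrence Q
  have hb : ∀ n i, (T ^ n) (b i) = ∑ j, a n i j • b j := by
    intro n
    induction n with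
    | zero => intro i; simp [ha0]
    | succ n ih =>
      intro i
      have hms : ∀ (c : ℤ) (x : M → ℤ), (T ^ n) (c • x) = c • (T ^ n) x :=
        fun c x => (T ^ n).map_smul c x
      rw [pow_succ, Module.End.mul_apply, ← hQ i, map_sum]
      simp_rw [hms, ih, Finset.smul_sum, smul_smul]
      rw [Finset.sum_comm]
      apply Finset.sum_congr rfl
      intro j _
      rw [← Finset.sum_smul, hasucc]
  have hfn : ∀ n, (T ^ n) f = ∑ j, (∑ i, y i * a n i j) • b j := by
    intro n
    have hms : ∀ (c : ℤ) (x : M → ℤ), (T ^ n) (c • x) = c • (T ^ n) x :=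
      fun c x => (T ^ n).map_smul c x
    rw [← hy, map_sum]
    simp_rw [hms, hb, Finset.smul_sum, smul_smul]
    rw [Finset.sum_comm]
    apply Finset.sum_congr rfl
    intro j _
    rw [← Finset.sum_smul]
  refine ⟨q, fun n => ?_⟩
  rw [hfn]
  simp_rw [hfn, harec, Finset.smul_sum, smul_smul]
  rw [Finset.sum_comm]
  apply Finset.sum_congr rfl
  intro j _
  rw [← Finset.sum_smul]
  congr 1
  simp_rw [Finset.mul_sum]
  rw [Finset.sum_comm]
  apply Finset.sum_congr rfl
  intro k _
  apply Finset.sum_congr rfl
  intro i _
  ring

end Pool.Agent.Work.MP_4cd38d_lc
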