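import Mathlib
import Pool.Agent.Work.MP_4cd38d_lc.Defs
import Pool.Agent.Work.MP_4cd38d_lc.Count
import Pool.Agent.Work.MP_4cd38d_lc.Recur

set_option autoImplicit false

/-!
The sum of squares of differences of scattered subword counts of two HD0L sequences satisfies a
monic integer linear recurrence of explicitly bounded order.
-/

namespace Pool.Agent.Work.MP_4cd38d_lc

section

variable {C : Type*}

/-- The word described by a function into `Option C`. -/
def wd {r : ℕ} (i : Fin r → Option C) : List C := (List.ofFn i).reduceOption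

lemma wd_length_le {r : ℕ} (i : Fin r → Option C) : (wd i).length ≤ r := by
  unfold wd
  calc ((List.ofFn i).reduceOption).length ≤ (List.ofFn i).length := List.reduceOption_length_le _
    _ = r := by simp

lemma exists_wd (r : ℕ) (z : List C) (hz : z.length ≤ r) : ∃ i : Fin r → Option C, wd i = z := by
  induction r generalizing z with
  | zero =>
    refine ⟨fun i => none, ?_⟩
    have : z = [] := List.length_eq_zero_iff.1 (Nat.le_zero.1 hz)
    rw [this]
    simp [wd]
  | succ r ih =>
    cases z with
    | nil =>
      obtain ⟨i, hi⟩ := ih [] (Nat.zero_le _)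
      refine ⟨Fin.cons none i, ?_⟩
      unfold wd at hi ⊢
      rw [List.ofFn_succ]
      simpa using hi
    | cons a z =>
      obtain ⟨i, hi⟩ := ih z (by simpa using hz)
      refine ⟨Fin.cons (some a) i, ?_⟩
      unfold wd at hi ⊢
      rw [List.ofFn_succ]
      simpa using hi

end

section

variable {C : Type*} [DecidableEq C]

/-- The products of two counts. -/
def bb (C : Type*) [DecidableEq C] (r : ℕ) (i : (Fin r → Option C) × (Fin r → Option C)) :
    List C → ℤ := cnt (wd i.1) * cnt (wd i.2)

lemma mul_mem_span {r : ℕ} {φ ψ : List C → ℤ} (hφ : φ ∈ SS C r) (hψ : ψ ∈ SS C r) :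
    φ * ψ ∈ Submodule.span ℤ (Set.range (bb C r)) := by
  induction hφ using Submodule.span_induction with
  | mem f hf =>
    obtain ⟨z, hz, rfl⟩ := hf
    induction hψ using Submodule.span_induction with
    | mem f' hf' =>
      obtain ⟨z', hz', rfl⟩ := hf'
      obtain ⟨i, hi⟩ := exists_wd r z hz
      obtain ⟨j, hj⟩ := exists_wd r z' hz'
      apply Submodule.subset_span
      exact ⟨(i, j), by simp only [bb, hi, hj]⟩
    | zero => rw [mul_zero]; exact Submodule.zero_mem _
    | add f g _ _ hf hg => rw [mul_add]; exact Submodule.add_mem _ hf hg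
    | smul c f _ hf => rw [mul_smul_comm]; exact Submodule.smul_mem _ _ hf
  | zero => rw [zero_mul]; exact Submodule.zero_mem _
  | add f g _ _ hf hg => rw [add_mul]; exact Submodule.add_mem _ hf hg
  | smul c f _ hf => rw [smul_mul_assoc]; exact Submodule.smul_mem _ _ hf

lemma bb_mem {r : ℕ} (i : (Fin r → Option C) × (Fin r → Option C)) :
    cnt (wd i.1) ∈ SS C r ∧ cnt (wd i.2) ∈ SS C r :=
  ⟨Submodule.subset_span ⟨_, wd_length_le _, rfl⟩, Submodule.subset_span ⟨_, wd_length_le _, rfl⟩⟩

end

/-- The sum of squared differences of scattered subword counts. -/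
def sq {D : Type*} [DecidableEq D] (X : List (List D)) (w w' : List D) : ℤ :=
  (X.map fun x => ((scatteredCount x w : ℤ) - (scatteredCount x w' : ℤ)) ^ 2).sum

lemma one_system_recurrence {C D : Type*} [Fintype C] [DecidableEq C] [DecidableEq D]
    (g : C → List C) (G H : C → List D) (w₀ : List C) (X : List (List D)) (r : ℕ)
    (hr : ∀ x ∈ X, x.length ≤ r) :
    ∃ q : ℕ → ℤ, ∀ n,
      sq X (hd0l g G w₀ (n + (Fintype.card C + 1) ^ r * (Fintype.card C + 1) ^ r))
        (hd0l g H w₀ (n + (Fintype.card C + 1) ^ r * (Fintype.card C + 1) ^ r)) =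
      ∑ k ∈ Finset.range ((Fintype.card C + 1) ^ r * (Fintype.card C + 1) ^ r),
        q k * sq X (hd0l g G w₀ (n + k)) (hd0l g H w₀ (n + k)) := by
  let T : Module.End ℤ (List C → ℤ) := LinearMap.funLeft ℤ ℤ fun w => w.flatMap g
  have hT1 : ∀ φ w, T φ w = φ (w.flatMap g) := fun φ w => rfl
  have hTmul : ∀ φ ψ, T (φ * ψ) = T φ * T ψ := fun φ ψ => rfl
  have hTn : ∀ n φ w, (T ^ n) φ w = φ ((fun w : List C => w.flatMap g)^[n] w) := by
    intro n
    induction n with
    | zero => intro φ w; rfl
    | succ n ih =>
      intro φ w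
      rw [pow_succ, Module.End.mul_apply, ih, hT1, Function.iterate_succ_apply']
  have hTS : ∀ φ ∈ SS C r, T φ ∈ SS C r := by
    intro φ hφ
    induction hφ using Submodule.span_induction with
    | mem f hf =>
      obtain ⟨z, hz, rfl⟩ := hf
      exact SS_mono hz (cnt_flatMap_mem g z)
    | zero => rw [map_zero]; exact Submodule.zero_mem _
    | add f g _ _ hf hg => rw [map_add]; exact Submodule.add_mem _ hf hg
    | smul c f _ hf => rw [map_smul]; exact Submodule.smul_mem _ _ hf
  have hTb : ∀ i, T (bb C r i) ∈ Submodule.span ℤ (Set.range (bb C r)) := by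
    intro i
    change T (cnt (wd i.1) * cnt (wd i.2)) ∈ _
    rw [hTmul]
    exact mul_mem_span (hTS _ (bb_mem i).1) (hTS _ (bb_mem i).2)
  let f : List C → ℤ := fun w => sq X (w.flatMap G) (w.flatMap H)
  have hf : f ∈ Submodule.span ℤ (Set.range (bb C r)) := by
    have hgen : ∀ Y : List (List D), (∀ x ∈ Y, x.length ≤ r) →
        (fun w : List C => sq Y (w.flatMap G) (w.flatMap H)) ∈
          Submodule.span ℤ (Set.range (bb C r)) := by
      intro Y
      induction Y with
      | nil =>
        intro _
        have : (fun w : List C => sq ([] : List (List D)) (w.flatMap G) (w.flatMap H)) = 0 := by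
          funext w; simp [sq]
        rw [this]
        exact Submodule.zero_mem _
      | cons x Y ihY =>
        intro hY
        let φ : List C → ℤ := (fun w => (scatteredCount x (w.flatMap G) : ℤ)) -
          fun w => (scatteredCount x (w.flatMap H) : ℤ)
        have hφ : φ ∈ SS C r := Submodule.sub_mem _
          (SS_mono (hY x List.mem_cons_self) (cnt_flatMap_mem G x))
          (SS_mono (hY x List.mem_cons_self) (cnt_flatMap_mem H x))
        have : (fun w : List C => sq (x :: Y) (w.flatMap G) (w.flatMap H)) = φ * φ +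
            fun w : List C => sq Y (w.flatMap G) (w.flatMap H) := by
          funext w
          simp only [sq, List.map_cons, List.sum_cons, Pi.add_apply, Pi.mul_apply, φ,
            Pi.sub_apply]
          ring
        rw [this]
        exact Submodule.add_mem _ (mul_mem_span hφ hφ)
          (ihY fun y hy => hY y (List.mem_cons_of_mem _ hy))
    exact hgen X hr
  obtain ⟨q, hq⟩ := exists_recurrence T (bb C r) hTb f hf
  have hcard : Fintype.card ((Fin r → Option C) × (Fin r → Option C)) =
      (Fintype.card C + 1) ^ r * (Fintype.card C + 1) ^ r := by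
    simp
  rw [hcard] at hq
  refine ⟨q, fun n => ?_⟩
  have h1 := congrFun (hq n) w₀
  rw [Finset.sum_apply, hTn] at h1
  simp only [Pi.smul_apply, hTn, smul_eq_mul] at h1
  exact h1

/-- Two HD0L sequences. -/
lemma two_systems_recurrence {A B D : Type*} [Fintype A] [Fintype B] [DecidableEq A]
    [DecidableEq B] [DecidableEq D]
    (g₁ : A → List A) (g₂ : A → List D) (u : List A)
    (h₁ : B → List B) (h₂ : B → List D) (v : List B) (X : List (List D)) (r : ℕ)
    (hr : ∀ x ∈ X, x.length ≤ r) :
    ∃ q : ℕ → ℤ, ∀ n,
      sq X (hd0l g₁ g₂ u (n + (Fintype.card A + Fintype.card B + 1) ^ r *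
          (Fintype.card A + Fintype.card B + 1) ^ r))
        (hd0l h₁ h₂ v (n + (Fintype.card A + Fintype.card B + 1) ^ r *
          (Fintype.card A + Fintype.card B + 1) ^ r)) =
      ∑ k ∈ Finset.range ((Fintype.card A + Fintype.card B + 1) ^ r *
          (Fintype.card A + Fintype.card B + 1) ^ r),
        q k * sq X (hd0l g₁ g₂ u (n + k)) (hd0l h₁ h₂ v (n + k)) := by
  let g : A ⊕ B → List (A ⊕ B) := Sum.elim (fun a => (g₁ a).map Sum.inl) fun b => (h₁ b).map Sum.inr
  let G : A ⊕ B → List D := Sum.elim g₂ fun _ => []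
  let H : A ⊕ B → List D := Sum.elim (fun _ => []) h₂
  have h := one_system_recurrence g G H (u.map Sum.inl ++ v.map Sum.inr) X r hr
  rw [Fintype.card_sum] at h
  have h1 : ∀ (n : ℕ) (w : List A) (w' : List B),
      (fun w : List (A ⊕ B) => w.flatMap g)^[n] (w.map Sum.inl ++ w'.map Sum.inr) =
      ((fun w : List A => w.flatMap g₁)^[n] w).map Sum.inl ++
        ((fun w : List B => w.flatMap h₁)^[n] w').map Sum.inr := by
    intro n
    induction n with
    | zero => intro w w'; rfl
    | succ n ih =>
      intro w w'
      rw [Function.iterate_succ_apply, Function.iterate_succ_apply, Function.iterate_succ_apply,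
        ← ih]
      congr 1
      simp [g, List.flatMap_map, List.map_flatMap]
  have h3 : ∀ n, hd0l g G (u.map Sum.inl ++ v.map Sum.inr) n = hd0l g₁ g₂ u n := by
    intro n
    unfold hd0l
    rw [h1]
    simp [G, List.flatMap_map]
  have h4 : ∀ n, hd0l g H (u.map Sum.inl ++ v.map Sum.inr) n = hd0l h₁ h₂ v n := by
    intro n
    unfold hd0l
    rw [h1]
    simp [H, List.flatMap_map]
  simp only [h3, h4] at h
  exact h

end Pool.Agent.Work.MP_4cd38d_lc
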