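import Mathlib
import Pool.Agent.Work.MP_4cd38d_lc.Defs
import Pool.Agent.Work.MP_4cd38d_lc.DefsSkolem
import Pool.Agent.Work.MP_4cd38d_lc.Count
import Pool.Agent.Work.MP_4cd38d_lc.Recur
import Pool.Agent.Work.MP_4cd38d_lc.SysRec
import Pool.Agent.Work.MP_4cd38d_lc.Nonsing

set_option autoImplicit false

namespace Pool.Agent.Work.MP_4cd38d_lc

/-! ### From systems over `ℕ` to systems over a finite alphabet -/

/-- A strict bound for the letters of a system. -/
def bnd (S : HSystem) : ℕ := S.1.sum + S.2.1.flatten.sum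

lemma le_sum_of_mem {L : List ℕ} {a : ℕ} (h : a ∈ L) : a ≤ L.sum := by
  induction L with
  | nil => simp at h
  | cons b L ih =>
    rw [List.sum_cons]
    rcases List.mem_cons.1 h with rfl | h
    · exact Nat.le_add_right _ _
    · exact (ih h).trans (Nat.le_add_left _ _)

lemma to_fin (S : HSystem) (K : ℕ) (h1 : ∀ a ∈ S.1, a < K + 1)
    (h2 : ∀ w ∈ S.2.1, ∀ a ∈ w, a < K + 1) :
    ∀ n, hd0l (fun a : Fin (K + 1) => (S.2.1.getD a []).map (Fin.ofNat (K + 1)))
      (fun a : Fin (K + 1) => S.2.2.getD a []) (S.1.map (Fin.ofNat (K + 1))) n = term S n := by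
  have hval : ∀ w : List ℕ, (∀ a ∈ w, a < K + 1) →
      (w.map (Fin.ofNat (K + 1))).map (fun a : Fin (K + 1) => (a : ℕ)) = w := by
    intro w hw
    rw [List.map_map]
    conv_rhs => rw [← List.map_id w]
    apply List.map_congr_left
    intro a ha
    simp only [Function.comp, Fin.ofNat, id]
    exact Nat.mod_eq_of_lt (hw a ha)
  have hrow : ∀ a : ℕ, ∀ b ∈ S.2.1.getD a [], b < K + 1 := by
    intro a b hb
    by_cases ha : a < S.2.1.length
    · rw [List.getD_eq_getElem _ _ ha] at hb
      exact h2 _ (List.getElem_mem ha) b hb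
    · rw [List.getD_eq_default _ _ (not_lt.1 ha)] at hb
      simp at hb
  have key : ∀ n, (∀ a ∈ (fun w : List ℕ => w.flatMap (fun a => S.2.1.getD a []))^[n] S.1,
      a < K + 1) ∧
      ((fun w : List (Fin (K + 1)) => w.flatMap
        (fun a : Fin (K + 1) => (S.2.1.getD a []).map (Fin.ofNat (K + 1))))^[n]
        (S.1.map (Fin.ofNat (K + 1)))) =
      ((fun w : List ℕ => w.flatMap (fun a => S.2.1.getD a []))^[n] S.1).map
        (Fin.ofNat (K + 1)) := by
    intro n
    induction n with
    | zero => exact ⟨h1, rfl⟩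
    | succ n ih =>
      rw [Function.iterate_succ_apply', Function.iterate_succ_apply']
      refine ⟨?_, ?_⟩
      · intro a ha
        obtain ⟨b, _, hb⟩ := List.mem_flatMap.1 ha
        exact hrow b a hb
      · rw [ih.2, List.flatMap_map, List.map_flatMap]
        apply List.flatMap_congr
        intro a ha
        have : ((Fin.ofNat (K + 1) a : Fin (K + 1)) : ℕ) = a := Nat.mod_eq_of_lt (ih.1 a ha)
        rw [this]
  intro n
  unfold hd0l term
  rw [(key n).2, List.flatMap_map]
  apply List.flatMap_congr
  intro a ha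
  have : ((Fin.ofNat (K + 1) a : Fin (K + 1)) : ℕ) = a := Nat.mod_eq_of_lt ((key n).1 a ha)
  rw [this]

lemma bnd_spec (S : HSystem) : (∀ a ∈ S.1, a < bnd S + 1) ∧ ∀ w ∈ S.2.1, ∀ a ∈ w, a < bnd S + 1 := by
  refine ⟨fun a ha => ?_, fun w hw a ha => ?_⟩
  · have := le_sum_of_mem ha
    unfold bnd; omega
  · have := le_sum_of_mem (List.mem_flatten.2 ⟨w, hw, ha⟩)
    unfold bnd; omega

/-- The order of the recurrence. -/
def ord (a : (HSystem × HSystem) × List (List ℕ)) : ℕ :=
  (bnd a.1.1 + 1 + (bnd a.1.2 + 1) + 1) ^ a.2.flatten.length *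
    (bnd a.1.1 + 1 + (bnd a.1.2 + 1) + 1) ^ a.2.flatten.length

lemma ord_pos (a : (HSystem × HSystem) × List (List ℕ)) : 0 < ord a := by
  unfold ord; positivity

lemma length_le_flatten {X : List (List ℕ)} {x : List ℕ} (hx : x ∈ X) :
    x.length ≤ X.flatten.length := by
  induction X with
  | nil => simp at hx
  | cons y X ih =>
    rw [List.flatten_cons, List.length_append]
    rcases List.mem_cons.1 hx with rfl | h
    · exact Nat.le_add_right _ _
    · exact (ih h).trans (Nat.le_add_left _ _)

lemma coded_recurrence (a : (HSystem × HSystem) × List (List ℕ)) :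
    ∃ q : ℕ → ℤ, ∀ n, sq a.2 (term a.1.1 (n + ord a)) (term a.1.2 (n + ord a)) =
      ∑ k ∈ Finset.range (ord a), q k * sq a.2 (term a.1.1 (n + k)) (term a.1.2 (n + k)) := by
  obtain ⟨⟨S, S'⟩, X⟩ := a
  obtain ⟨h1, h2⟩ := bnd_spec S
  obtain ⟨h3, h4⟩ := bnd_spec S'
  have h := two_systems_recurrence
    (fun a : Fin (bnd S + 1) => (S.2.1.getD a []).map (Fin.ofNat (bnd S + 1)))
    (fun a : Fin (bnd S + 1) => S.2.2.getD a []) (S.1.map (Fin.ofNat (bnd S + 1)))
    (fun a : Fin (bnd S' + 1) => (S'.2.1.getD a []).map (Fin.ofNat (bnd S' + 1)))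
    (fun a : Fin (bnd S' + 1) => S'.2.2.getD a []) (S'.1.map (Fin.ofNat (bnd S' + 1)))
    X X.flatten.length (fun x hx => length_le_flatten hx)
  simp only [to_fin S _ h1 h2, to_fin S' _ h3 h4, Fintype.card_fin] at h
  exact h

/-! ### The recurrence sequence -/

lemma lrs_eq (D : ℕ) (hD : 0 < D) (q s : ℕ → ℤ)
    (h : ∀ n, s (n + D) = ∑ k ∈ Finset.range D, q k * s (n + k)) (n : ℕ) :
    lrs ((List.range D).map q) ((List.range D).map s) n = s n := by
  have key : ∀ n, (lrsStep ((List.range D).map q))^[n] ((List.range D).map s) =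
      (List.range D).map fun i => s (n + i) := by
    intro n
    induction n with
    | zero => simp
    | succ n ih =>
      rw [Function.iterate_succ_apply', ih]
      unfold lrsStep
      obtain ⟨E, rfl⟩ : ∃ E, D = E + 1 := ⟨D - 1, by omega⟩
      have h1 : ((List.range (E + 1)).map fun i => s (n + i)).tail =
          (List.range E).map fun i => s (n + 1 + i) := by
        rw [List.range_succ_eq_map, List.map_cons, List.tail_cons, List.map_map]
        apply List.map_congr_left
        intro i _
        simp only [Function.comp]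
        congr 1
        omega
      have h2 : (List.zipWith (· * ·) ((List.range (E + 1)).map q)
          ((List.range (E + 1)).map fun i => s (n + i))).sum = s (n + 1 + E) := by
        rw [List.zipWith_map, List.zipWith_self]
        have h3 := h n
        rw [show n + 1 + E = n + (E + 1) by omega, h3, Finset.sum_range]
        rw [← List.sum_ofFn]
        congr 1
        rw [List.ofFn_eq_map, ← List.map_coe_finRange_eq_range, List.map_map]
        rfl
      rw [h1, h2, List.range_succ, List.map_append]
      rfl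
  unfold lrs
  rw [key n]
  obtain ⟨E, rfl⟩ : ∃ E, D = E + 1 := ⟨D - 1, by omega⟩
  rw [List.range_succ_eq_map, List.map_cons]
  simp

/-- If a sequence satisfies a monic recurrence of order `D`, then every recurrence of order `D`
that holds at the first `D` places holds everywhere. -/
lemma recurrence_of_initial (D : ℕ) (q q' s : ℕ → ℤ)
    (h : ∀ n, s (n + D) = ∑ k ∈ Finset.range D, q k * s (n + k))
    (h' : ∀ n < D, s (n + D) = ∑ k ∈ Finset.range D, q' k * s (n + k)) (n : ℕ) :
    s (n + D) = ∑ k ∈ Finset.range D, q' k * s (n + k) := by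
  induction n using Nat.strong_induction_on with
  | _ n ih =>
  rcases lt_or_ge n D with hn | hn
  · exact h' n hn
  · obtain ⟨m, rfl⟩ : ∃ m, n = m + D := ⟨n - D, by omega⟩
    have h1 : ∀ i < D, s (m + i + D) = ∑ k ∈ Finset.range D, q' k * s (m + i + k) :=
      fun i hi => ih (m + i) (by omega)
    calc s (m + D + D) = ∑ i ∈ Finset.range D, q i * s (m + D + i) := h (m + D)
      _ = ∑ i ∈ Finset.range D, q i * ∑ k ∈ Finset.range D, q' k * s (m + i + k) := by
          apply Finset.sum_congr rfl
          intro i hi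
          rw [← h1 i (Finset.mem_range.1 hi)]
          congr 2
          omega
      _ = ∑ k ∈ Finset.range D, q' k * ∑ i ∈ Finset.range D, q i * s (m + k + i) := by
          simp_rw [Finset.mul_sum]
          rw [Finset.sum_comm]
          apply Finset.sum_congr rfl
          intro k _
          apply Finset.sum_congr rfl
          intro i _
          rw [show m + i + k = m + k + i by omega]
          ring
      _ = ∑ k ∈ Finset.range D, q' k * s (m + D + k) := by
          apply Finset.sum_congr rfl
          intro k _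
          rw [← h (m + k)]
          congr 2
          omega

end Pool.Agent.Work.MP_4cd38d_lc
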