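import Mathlib
import Pool.Agent.Work.MP_4cd38d_lc.Coding

set_option autoImplicit false

/-!
Computability of the reduction.
-/

namespace Pool.Agent.Work.MP_4cd38d_lc

open Primrec

/-- Distance of natural numbers. -/
def dst (a b : ℕ) : ℕ := (a - b) + (b - a)

lemma dst_eq_zero {a b : ℕ} : dst a b = 0 ↔ a = b := by unfold dst; omega

lemma dst_sq (a b : ℕ) : ((dst a b ^ 2 : ℕ) : ℤ) = ((a : ℤ) - b) ^ 2 := by
  unfold dst
  rcases le_total a b with h | h
  · rw [Nat.sub_eq_zero_of_le h, zero_add]
    push_cast [h]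
    ring
  · rw [Nat.sub_eq_zero_of_le h, add_zero]
    push_cast [h]
    ring

lemma primrec_dst : Primrec₂ dst :=
  nat_add.comp₂ nat_sub (nat_sub.comp₂ Primrec₂.right Primrec₂.left)

/-- All scattered subwords, as a fold. -/
def subs (w : List ℕ) : List (List ℕ) :=
  w.foldr (fun a L => L ++ L.map (fun y => a :: y)) [[]]

lemma subs_eq (w : List ℕ) : subs w = w.sublists' := by
  induction w with
  | nil => rfl
  | cons a w ih =>
    rw [List.sublists'_cons, ← ih]
    rfl

lemma primrec_subs : Primrec subs := by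
  have h1 : Primrec₂ fun (_ : List ℕ) (p : ℕ × List (List ℕ)) =>
      p.2 ++ p.2.map (fun y => p.1 :: y) := by
    have h2 : Primrec fun p : ℕ × List (List ℕ) => p.2.map (fun y => p.1 :: y) :=
      list_map snd (list_cons.comp₂ (fst.comp₂ Primrec₂.left) Primrec₂.right)
    have h3 : Primrec fun p : ℕ × List (List ℕ) => p.2 ++ p.2.map (fun y => p.1 :: y) :=
      list_append.comp snd h2
    exact h3.comp₂ Primrec₂.right
  exact list_foldr Primrec.id (Primrec.const [[]]) h1

/-- Scattered subword count, computed. -/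
def cntN (x w : List ℕ) : ℕ := (subs w).foldr (fun y n => if y = x then n + 1 else n) 0

lemma cntN_eq (x w : List ℕ) : cntN x w = scatteredCount x w := by
  unfold cntN scatteredCount
  rw [(List.sublists_perm_sublists' w).count_eq, ← subs_eq]
  generalize subs w = L
  induction L with
  | nil => rfl
  | cons y L ih =>
    rw [List.foldr_cons, ih, List.count_cons]
    by_cases h : y = x
    · simp [h]
    · simp [h]

lemma primrec_cntN : Primrec₂ cntN := by
  have h1 : Primrec₂ fun (p : List ℕ × List ℕ) (q : List ℕ × ℕ) =>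
      if q.1 = p.1 then q.2 + 1 else q.2 := by
    apply Primrec.ite
    · exact Primrec.eq.comp (fst.comp snd) (fst.comp fst)
    · exact Primrec.succ.comp (snd.comp snd)
    · exact snd.comp snd
  exact list_foldr (primrec_subs.comp snd) (Primrec.const 0) h1

/-- The term function is primitive recursive. -/
lemma primrec_term : Primrec₂ term := by
  have h1 : Primrec₂ fun (p : HSystem × ℕ) (w : List ℕ) =>
      w.flatMap (fun a => p.1.2.1.getD a []) := by
    refine list_flatMap snd ?_
    exact (list_getD []).comp (fst.comp (snd.comp (fst.comp (fst.comp fst)))) snd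
  have h2 : Primrec fun p : HSystem × ℕ =>
      ((fun w : List ℕ => w.flatMap (fun a => p.1.2.1.getD a []))^[p.2] p.1.1) :=
    nat_iterate snd (fst.comp fst) h1
  have h3 : Primrec fun p : HSystem × ℕ =>
      ((fun w : List ℕ => w.flatMap (fun a => p.1.2.1.getD a []))^[p.2] p.1.1).flatMap
        (fun a => p.1.2.2.getD a []) := by
    refine list_flatMap h2 ?_
    exact (list_getD []).comp (snd.comp (snd.comp (fst.comp fst))) snd
  exact h3

/-- Sum of a list is primitive recursive. -/
lemma primrec_sum : Primrec (List.sum : List ℕ → ℕ) := by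
  have h1 : Primrec₂ fun (_ : List ℕ) (p : ℕ × ℕ) => p.1 + p.2 :=
    nat_add.comp (fst.comp snd) (snd.comp snd)
  exact (list_foldr Primrec.id (Primrec.const 0) h1).of_eq fun L => by
    simp [List.sum_eq_foldr]

lemma primrec_rsum {α : Type*} [Primcodable α] {D : α → ℕ} {f : α → ℕ → ℕ} (hD : Primrec D)
    (hf : Primrec₂ f) : Primrec fun a => ((List.range (D a)).map (f a)).sum :=
  primrec_sum.comp (list_map (list_range.comp hD) hf)

/-- The sum of squares, as a natural number. -/
def sqN (X : List (List ℕ)) (w w' : List ℕ) : ℕ :=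
  (X.map fun x => dst (cntN x w) (cntN x w') * dst (cntN x w) (cntN x w')).sum

lemma sqN_eq (X : List (List ℕ)) (w w' : List ℕ) : (sqN X w w' : ℤ) = sq X w w' := by
  unfold sqN sq
  induction X with
  | nil => simp
  | cons x X ih =>
    rw [List.map_cons, List.map_cons, List.sum_cons, List.sum_cons, ← ih, ← cntN_eq, ← cntN_eq,
      ← dst_sq]
    push_cast
    ring

/-- The parameter type of the search. -/
abbrev Par : Type := (HSystem × HSystem) × List (List ℕ)

/-- The sequence attached to a parameter. -/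
def sN (a : Par) (n : ℕ) : ℕ := sqN a.2 (term a.1.1 n) (term a.1.2 n)

lemma primrec_sN : Primrec₂ sN := by
  have h1 : Primrec fun p : Par × ℕ => term p.1.1.1 p.2 :=
    primrec_term.comp (fst.comp (fst.comp fst)) snd
  have h2 : Primrec fun p : Par × ℕ => term p.1.1.2 p.2 :=
    primrec_term.comp (snd.comp (fst.comp fst)) snd
  have h3 : Primrec₂ fun (p : Par × ℕ) (x : List ℕ) =>
      dst (cntN x (term p.1.1.1 p.2)) (cntN x (term p.1.1.2 p.2)) :=
    primrec_dst.comp (primrec_cntN.comp snd (h1.comp fst)) (primrec_cntN.comp snd (h2.comp fst))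
  have h4 : Primrec₂ fun (p : Par × ℕ) (x : List ℕ) =>
      dst (cntN x (term p.1.1.1 p.2)) (cntN x (term p.1.1.2 p.2)) *
        dst (cntN x (term p.1.1.1 p.2)) (cntN x (term p.1.1.2 p.2)) :=
    nat_mul.comp₂ h3 h3
  exact primrec_sum.comp (list_map (snd.comp fst) h4)

lemma primrec_bnd : Primrec bnd :=
  nat_add.comp (primrec_sum.comp fst) (primrec_sum.comp (list_flatten.comp (fst.comp snd)))

lemma primrec_pow : Primrec₂ ((· ^ ·) : ℕ → ℕ → ℕ) :=
  Primrec₂.unpaired'.1 Nat.Primrec.pow

lemma primrec_ord : Primrec ord := by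
  have h1 : Primrec fun a : Par => bnd a.1.1 + 1 + (bnd a.1.2 + 1) + 1 :=
    nat_add.comp (nat_add.comp (nat_add.comp (primrec_bnd.comp (fst.comp fst)) (Primrec.const 1))
      (nat_add.comp (primrec_bnd.comp (snd.comp fst)) (Primrec.const 1))) (Primrec.const 1)
  have h2 : Primrec fun a : Par => a.2.flatten.length := list_length.comp (list_flatten.comp snd)
  have h3 : Primrec fun a : Par =>
      (bnd a.1.1 + 1 + (bnd a.1.2 + 1) + 1) ^ a.2.flatten.length := primrec_pow.comp h1 h2
  exact nat_mul.comp h3 h3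

/-- The two sides of the tested recurrence. -/
def side (b : Bool) (a : Par) (c : List (ℕ × ℕ)) (n : ℕ) : ℕ :=
  ((List.range (ord a)).map fun i =>
    (if b then (c.getD i (0, 0)).1 else (c.getD i (0, 0)).2) * sN a (n + i)).sum

lemma primrec_side (b : Bool) : Primrec fun p : (Par × List (ℕ × ℕ)) × ℕ =>
    side b p.1.1 p.1.2 p.2 := by
  have h1 : Primrec₂ fun (p : (Par × List (ℕ × ℕ)) × ℕ) (i : ℕ) => p.1.2.getD i (0, 0) :=
    (list_getD (0, 0)).comp (snd.comp (fst.comp fst)) snd
  have h2 : Primrec₂ fun (p : (Par × List (ℕ × ℕ)) × ℕ) (i : ℕ) =>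
      (if b then (p.1.2.getD i (0, 0)).1 else (p.1.2.getD i (0, 0)).2) := by
    cases b
    · exact snd.comp₂ h1
    · exact fst.comp₂ h1
  have h3 : Primrec₂ fun (p : (Par × List (ℕ × ℕ)) × ℕ) (i : ℕ) => sN p.1.1 (p.2 + i) :=
    primrec_sN.comp (fst.comp (fst.comp fst)) (nat_add.comp (snd.comp fst) snd)
  exact primrec_rsum (primrec_ord.comp (fst.comp fst)) (nat_mul.comp₂ h2 h3)

/-- The total error of a candidate recurrence on the first `ord a` places. -/
def err (a : Par) (c : List (ℕ × ℕ)) : ℕ :=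
  ((List.range (ord a)).map fun n =>
    dst (sN a (n + ord a) + side false a c n) (side true a c n)).sum

lemma primrec_err : Primrec₂ err := by
  have h1 : Primrec₂ fun (p : Par × List (ℕ × ℕ)) (n : ℕ) => sN p.1 (n + ord p.1) :=
    primrec_sN.comp (fst.comp fst) (nat_add.comp snd (primrec_ord.comp (fst.comp fst)))
  have h2 : Primrec₂ fun (p : Par × List (ℕ × ℕ)) (n : ℕ) => side false p.1 p.2 n :=
    primrec_side false
  have h3 : Primrec₂ fun (p : Par × List (ℕ × ℕ)) (n : ℕ) => side true p.1 p.2 n :=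
    primrec_side true
  exact primrec_rsum (primrec_ord.comp fst) (primrec_dst.comp₂ (nat_add.comp₂ h1 h2) h3)

/-- The integer coefficient described by a pair of natural numbers. -/
def toInt (p : ℕ × ℕ) : ℤ := (p.1 : ℤ) - p.2

lemma primrec_toInt : Primrec toInt := by
  rw [← Primrec.encode_iff]
  have h1 : Primrec fun p : ℕ × ℕ => if p.2 ≤ p.1 then 2 * (p.1 - p.2) else
      2 * (p.2 - p.1 - 1) + 1 := by
    apply Primrec.ite
    · exact Primrec.nat_le.comp snd fst
    · exact nat_mul.comp (Primrec.const 2) (nat_sub.comp fst snd)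
    · exact nat_add.comp (nat_mul.comp (Primrec.const 2)
        (nat_sub.comp (nat_sub.comp snd fst) (Primrec.const 1))) (Primrec.const 1)
  refine h1.of_eq fun p => ?_
  obtain ⟨a, b⟩ := p
  unfold toInt
  by_cases h : b ≤ a
  · rw [if_pos h]
    obtain ⟨c, rfl⟩ := Nat.exists_eq_add_of_le h
    have : ((b + c : ℕ) : ℤ) - (b : ℤ) = Int.ofNat c := by simp
    simp only [this]
    rw [Nat.add_sub_cancel_left]
    rfl
  · rw [if_neg h]
    obtain ⟨c, rfl⟩ := Nat.exists_eq_add_of_lt (not_le.1 h)
    have : ((a : ℕ) : ℤ) - ((a + c + 1 : ℕ) : ℤ) = Int.negSucc c := by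
      rw [Int.negSucc_eq]; push_cast; ring
    simp only [this]
    have h2 : a + c + 1 - a - 1 = c := by omega
    rw [h2]
    rfl

end Pool.Agent.Work.MP_4cd38d_lc
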