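import Mathlib
import Pool.Agent.Work.MP_4cd38d_lc.Comp

set_option autoImplicit false

/-!
The computable reduction.
-/

namespace Pool.Agent.Work.MP_4cd38d_lc

open Denumerable

lemma list_range_sum {M : Type*} [AddCommMonoid M] (f : ℕ → M) (n : ℕ) :
    ((List.range n).map f).sum = ∑ i ∈ Finset.range n, f i := by
  induction n with
  | zero => simp
  | succ n ih => rw [List.range_succ, List.map_append, List.sum_append, ih, Finset.sum_range_succ]; simp

lemma side_sub (a : Par) (c : List (ℕ × ℕ)) (n : ℕ) :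
    ((side true a c n : ℕ) : ℤ) - ((side false a c n : ℕ) : ℤ) =
      ∑ i ∈ Finset.range (ord a), toInt (c.getD i (0, 0)) * (sN a (n + i) : ℤ) := by
  unfold side
  rw [list_range_sum, list_range_sum]
  push_cast
  rw [← Finset.sum_sub_distrib]
  apply Finset.sum_congr rfl
  intro i _
  unfold toInt
  simp only [if_true]
  ring

lemma err_eq_zero (a : Par) (c : List (ℕ × ℕ)) : err a c = 0 ↔ ∀ n < ord a,
    (sN a (n + ord a) : ℤ) =
      ∑ i ∈ Finset.range (ord a), toInt (c.getD i (0, 0)) * (sN a (n + i) : ℤ) := by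
  unfold err
  rw [list_range_sum, Finset.sum_eq_zero_iff]
  constructor
  · intro h n hn
    have h1 := dst_eq_zero.1 (h n (Finset.mem_range.2 hn))
    rw [← side_sub, ← h1]
    push_cast
    ring
  · intro h n hn
    rw [dst_eq_zero]
    have h1 := h n (Finset.mem_range.1 hn)
    rw [← side_sub] at h1
    have h2 : ((sN a (n + ord a) + side false a c n : ℕ) : ℤ) = (side true a c n : ℕ) := by
      push_cast
      linarith
    exact_mod_cast h2

lemma sN_eq (a : Par) (n : ℕ) : (sN a n : ℤ) = sq a.2 (term a.1.1 n) (term a.1.2 n) := sqN_eq _ _ _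

lemma exists_code (a : Par) : ∃ k : ℕ, decide (err a (ofNat (List (ℕ × ℕ)) k) = 0) = true := by
  obtain ⟨q, hq⟩ := coded_recurrence a
  refine ⟨Encodable.encode ((List.range (ord a)).map fun i => ((q i).toNat, (-q i).toNat)), ?_⟩
  rw [decide_eq_true_iff, ofNat_encode, err_eq_zero]
  intro n _
  rw [sN_eq, hq n]
  apply Finset.sum_congr rfl
  intro i hi
  rw [sN_eq]
  congr 1
  have hi' : i < ((List.range (ord a)).map fun i => ((q i).toNat, (-q i).toNat)).length := by
    simpa using Finset.mem_range.1 hi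
  rw [List.getD_eq_getElem _ _ hi']
  simp only [List.getElem_map, List.getElem_range, toInt]
  omega

/-- The coefficients found by the search. -/
noncomputable def coef (a : Par) : List (ℕ × ℕ) := ofNat (List (ℕ × ℕ)) (Nat.find (exists_code a))

lemma err_coef (a : Par) : err a (coef a) = 0 := by
  have := Nat.find_spec (exists_code a)
  exact decide_eq_true_iff.1 this

lemma computable_find {α : Type*} [Primcodable α] (p : α → ℕ → Bool) (hp : Computable₂ p)
    (h : ∀ a, ∃ n, p a n = true) : Computable fun a => Nat.find (h a) := by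
  refine (Partrec.rfind hp.partrec₂).of_eq_tot fun a => ?_
  rw [Nat.mem_rfind]
  refine ⟨?_, fun {m} hm => ?_⟩
  · simpa using Nat.find_spec (h a)
  · have := Nat.find_min (h a) hm
    simp only [Bool.not_eq_true] at this
    simpa using this

lemma computable_coef : Computable coef := by
  have h1 : Computable₂ fun (a : Par) (k : ℕ) => decide (err a (ofNat (List (ℕ × ℕ)) k) = 0) := by
    have h2 : PrimrecPred fun p : Par × ℕ => err p.1 (ofNat (List (ℕ × ℕ)) p.2) = 0 :=
      Primrec.eq.comp (primrec_err.comp Primrec.fst ((Primrec.ofNat _).comp Primrec.snd))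
        (Primrec.const 0)
    exact h2.decide.to_comp
  exact (Computable.ofNat _).comp (computable_find _ h1 exists_code)

/-- The output of the reduction, given the coefficients. -/
def out (p : Par × List (ℕ × ℕ)) : List ℤ × List ℤ :=
  ((List.range (ord p.1)).map fun i => toInt (p.2.getD i (0, 0)),
    (List.range (ord p.1)).map fun i => toInt (sN p.1 i, 0))

lemma primrec_out : Primrec out := by
  have h1 : Primrec fun p : Par × List (ℕ × ℕ) => List.range (ord p.1) :=
    Primrec.list_range.comp (primrec_ord.comp Primrec.fst)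
  have h2 : Primrec₂ fun (p : Par × List (ℕ × ℕ)) (i : ℕ) => toInt (p.2.getD i (0, 0)) :=
    primrec_toInt.comp ((Primrec.list_getD (0, 0)).comp (Primrec.snd.comp Primrec.fst) Primrec.snd)
  have h3 : Primrec₂ fun (p : Par × List (ℕ × ℕ)) (i : ℕ) => toInt (sN p.1 i, 0) :=
    primrec_toInt.comp (Primrec.pair
      (primrec_sN.comp (Primrec.fst.comp Primrec.fst) Primrec.snd) (Primrec.const 0))
  exact Primrec.pair (Primrec.list_map h1 h2) (Primrec.list_map h1 h3)

/-- The reduction on parameters. -/
noncomputable def tau (a : Par) : List ℤ × List ℤ := out (a, coef a)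

lemma computable_tau : Computable tau :=
  primrec_out.to_comp.comp (Computable.pair Computable.id computable_coef)

lemma tau_length (a : Par) : (tau a).1.length = (tau a).2.length ∧ 0 < (tau a).1.length := by
  simp [tau, out, ord_pos]

lemma lrs_tau (a : Par) (n : ℕ) : lrs (tau a).1 (tau a).2 n = (sN a n : ℤ) := by
  obtain ⟨q, hq⟩ := coded_recurrence a
  have h1 := (err_eq_zero a (coef a)).1 (err_coef a)
  have h2 : ∀ n, (sN a (n + ord a) : ℤ) =
      ∑ k ∈ Finset.range (ord a), toInt ((coef a).getD k (0, 0)) * (sN a (n + k) : ℤ) :=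
    recurrence_of_initial (ord a) q (fun k => toInt ((coef a).getD k (0, 0)))
      (fun n => (sN a n : ℤ)) (fun n => by simp only [sN_eq]; exact hq n) h1
  have h3 := lrs_eq (ord a) (ord_pos a) (fun k => toInt ((coef a).getD k (0, 0)))
    (fun n => (sN a n : ℤ)) h2 n
  have h4 : (tau a).2 = (List.range (ord a)).map fun n => (sN a n : ℤ) := by
    unfold tau out
    apply List.map_congr_left
    intro i _
    simp [toInt]
  rw [h4]
  exact h3

lemma sN_eq_zero {a : Par} {n : ℕ} (h : term a.1.1 n = term a.1.2 n) : sN a n = 0 := by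
  have h1 : (sN a n : ℤ) = 0 := by
    rw [sN_eq, h]
    unfold sq
    simp
  exact_mod_cast h1

lemma sN_ne_zero {a : Par} {n : ℕ} {x : List ℕ} (hx : x ∈ a.2)
    (h : scatteredCount x (term a.1.1 n) ≠ scatteredCount x (term a.1.2 n)) : sN a n ≠ 0 := by
  unfold sN sqN
  intro h0
  rw [List.sum_eq_zero_iff] at h0
  have h1 := h0 _ (List.mem_map_of_mem hx)
  rw [mul_self_eq_zero] at h1
  rw [dst_eq_zero, cntN_eq, cntN_eq] at h1
  exact h h1

/-- The matrix of letter numbers of a table. -/
def tmat (T : List (List ℕ)) (k : ℕ) : Matrix (Fin k) (Fin k) ℤ :=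
  Matrix.of fun i j : Fin k => (((T.getD i []).count (j : ℕ) : ℕ) : ℤ)

lemma incidence_eq (T : List (List ℕ)) (K : ℕ) (h : ∀ w ∈ T, ∀ a ∈ w, a < K + 1) :
    incidence (fun a : Fin (K + 1) => (T.getD a []).map (Fin.ofNat (K + 1))) = tmat T (K + 1) := by
  ext i j
  have hrow : ∀ a ∈ T.getD i [], a < K + 1 := by
    intro b hb
    by_cases ha : (i : ℕ) < T.length
    · rw [List.getD_eq_getElem _ _ ha] at hb
      exact h _ (List.getElem_mem ha) b hb
    · rw [List.getD_eq_default _ _ (not_lt.1 ha)] at hb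
      simp at hb
  change (((T.getD i []).map (Fin.ofNat (K + 1))).count j : ℤ) = ((T.getD i []).count (j : ℕ) : ℤ)
  congr 1
  rw [List.count, List.countP_map, List.count]
  apply List.countP_congr
  intro a ha
  have h1 : ((Fin.ofNat (K + 1) a : Fin (K + 1)) : ℕ) = a := Nat.mod_eq_of_lt (hrow a ha)
  simp only [Function.comp, beq_iff_eq]
  constructor
  · intro h2; rw [← h2]; exact h1.symm
  · intro h2
    apply Fin.ext
    rw [h1, h2]

lemma certificate_pos (S S' : HSystem) (hS : Nonsingular S) (hS' : Nonsingular S')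
    (hk : 0 < S.2.1.length) (hk' : 0 < S'.2.1.length) (hE : ∀ n, term S n ≠ term S' n) :
    ∃ X : Finset (List ℕ), ∀ n, ∃ x ∈ X,
      scatteredCount x (term S n) ≠ scatteredCount x (term S' n) := by
  obtain ⟨h1, h2, h3⟩ := hS
  obtain ⟨h1', h2', h3'⟩ := hS'
  obtain ⟨K, hK⟩ : ∃ K, S.2.1.length = K + 1 := ⟨S.2.1.length - 1, by omega⟩
  obtain ⟨K', hK'⟩ : ∃ K, S'.2.1.length = K + 1 := ⟨S'.2.1.length - 1, by omega⟩
  change (tmat S.2.1 S.2.1.length).det ≠ 0 at h3
  change (tmat S'.2.1 S'.2.1.length).det ≠ 0 at h3'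
  simp only [hK] at h1 h2
  simp only [hK'] at h1' h2'
  rw [hK] at h3
  rw [hK'] at h3'
  rw [← incidence_eq _ _ h2] at h3
  rw [← incidence_eq _ _ h2'] at h3'
  have h := certificate
    (fun a : Fin (K + 1) => (S.2.1.getD a []).map (Fin.ofNat (K + 1)))
    (fun a : Fin (K + 1) => S.2.2.getD a []) (S.1.map (Fin.ofNat (K + 1)))
    (fun a : Fin (K' + 1) => (S'.2.1.getD a []).map (Fin.ofNat (K' + 1)))
    (fun a : Fin (K' + 1) => S'.2.2.getD a []) (S'.1.map (Fin.ofNat (K' + 1))) h3 h3'
  simp only [to_fin S _ h1 h2, to_fin S' _ h1' h2'] at h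
  exact h hE

/-- Every nonsingular system may be replaced by one with a nonempty table. -/
lemma exists_pos (S : HSystem) (hS : Nonsingular S) :
    ∃ T : HSystem, Nonsingular T ∧ 0 < T.2.1.length ∧ ∀ n, term T n = term S n := by
  rcases Nat.eq_zero_or_pos S.2.1.length with h0 | hpos
  · refine ⟨([], [[0]], []), ⟨by simp, by simp, ?_⟩, by simp, ?_⟩
    · have : (Matrix.of fun i j : Fin ([[0]] : List (List ℕ)).length =>
          (((([[0]] : List (List ℕ)).getD i []).count (j : ℕ) : ℕ) : ℤ)) = 1 := by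
        ext i j
        have hi : (i : ℕ) = 0 := Nat.lt_one_iff.1 i.2
        have hj : (j : ℕ) = 0 := Nat.lt_one_iff.1 j.2
        have hij : i = j := Fin.ext (by rw [hi, hj])
        subst hij
        rw [Matrix.one_apply_eq]
        simp [hi]
      change (Matrix.of fun i j : Fin ([[0]] : List (List ℕ)).length =>
          (((([[0]] : List (List ℕ)).getD i []).count (j : ℕ) : ℕ) : ℤ)).det ≠ 0
      rw [this, Matrix.det_one]
      exact one_ne_zero
    · intro n
      have hS1 : S.1 = [] := by
        rw [List.eq_nil_iff_forall_not_mem]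
        intro a ha
        have := hS.1 a ha
        omega
      have hit : ∀ (f : ℕ → List ℕ) (n : ℕ), (fun w : List ℕ => w.flatMap f)^[n] [] = [] := by
        intro f n
        induction n with
        | zero => rfl
        | succ n ih => rw [Function.iterate_succ_apply]; exact ih
      unfold term
      rw [hS1, hit, hit]
      rfl
  · exact ⟨S, hS, hpos, fun n => rfl⟩

lemma certificate_coded (S S' : HSystem) (hS : Nonsingular S) (hS' : Nonsingular S')
    (hE : ∀ n, term S n ≠ term S' n) :
    ∃ X : Finset (List ℕ), ∀ n, ∃ x ∈ X,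
      scatteredCount x (term S n) ≠ scatteredCount x (term S' n) := by
  obtain ⟨T, hT, hT0, hTS⟩ := exists_pos S hS
  obtain ⟨T', hT', hT0', hTS'⟩ := exists_pos S' hS'
  obtain ⟨X, hX⟩ := certificate_pos T T' hT hT' hT0 hT0' (fun n => by rw [hTS, hTS']; exact hE n)
  refine ⟨X, fun n => ?_⟩
  obtain ⟨x, hx, h⟩ := hX n
  rw [hTS, hTS'] at h
  exact ⟨x, hx, h⟩

/-- The main theorem. -/
theorem reduction :
    ∃ τ : (HSystem × HSystem) × ℕ → List ℤ × List ℤ, Computable τ ∧
      (∀ q, (τ q).1.length = (τ q).2.length ∧ 0 < (τ q).1.length) ∧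
      ∀ S S' : HSystem, Nonsingular S → Nonsingular S' →
        ((∃ n, term S n = term S' n) ↔
          ∀ m, ∃ n, lrs (τ ((S, S'), m)).1 (τ ((S, S'), m)).2 n = 0) := by
  refine ⟨fun q => tau (q.1, ofNat (List (List ℕ)) q.2), ?_, fun q => tau_length _, ?_⟩
  · exact computable_tau.comp (Computable.pair Computable.fst
      ((Computable.ofNat _).comp Computable.snd))
  · intro S S' hS hS'
    constructor
    · rintro ⟨n, hn⟩ m
      refine ⟨n, ?_⟩
      rw [lrs_tau, sN_eq_zero hn]
      rfl
    · intro h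
      by_contra hcon
      push Not at hcon
      obtain ⟨X, hX⟩ := certificate_coded S S' hS hS' hcon
      obtain ⟨n, hn⟩ := h (Encodable.encode X.toList)
      rw [lrs_tau] at hn
      obtain ⟨x, hx, hne⟩ := hX n
      have h1 : x ∈ ofNat (List (List ℕ)) (Encodable.encode X.toList) := by
        rw [ofNat_encode]; exact Finset.mem_toList.2 hx
      exact sN_ne_zero (a := ((S, S'), ofNat (List (List ℕ)) (Encodable.encode X.toList))) h1 hne
        (by exact_mod_cast hn)

/-- Decidability relative to Skolem's problem. -/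
theorem decidable_of_skolem
    (hSk : ComputablePred fun p : List ℤ × List ℤ =>
      p.1.length = p.2.length ∧ 0 < p.1.length ∧ ∃ n, lrs p.1 p.2 n = 0) :
    ∃ f : HSystem × HSystem →. Bool, Partrec f ∧
      ∀ S S' : HSystem, Nonsingular S → Nonsingular S' →
        ((∃ n, term S n = term S' n) → true ∈ f (S, S')) ∧
        ((¬ ∃ n, term S n = term S' n) → false ∈ f (S, S')) := by
  obtain ⟨τ, hτ, hlen, hred⟩ := reduction
  obtain ⟨sk, hsk, hsk'⟩ := ComputablePred.computable_iff.1 hSk
  let t₁ : HSystem × HSystem → ℕ → Bool := fun s k => decide (term s.1 k = term s.2 k)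
  let t₂ : HSystem × HSystem → ℕ → Bool := fun s k => ! sk (τ (s, k))
  have ht₁ : Computable₂ t₁ := by
    have h : PrimrecPred fun p : (HSystem × HSystem) × ℕ => term p.1.1 p.2 = term p.1.2 p.2 :=
      Primrec.eq.comp (primrec_term.comp (Primrec.fst.comp Primrec.fst) Primrec.snd)
        (primrec_term.comp (Primrec.snd.comp Primrec.fst) Primrec.snd)
    exact h.decide.to_comp
  have ht₂ : Computable₂ t₂ := by
    have h : Computable fun p : (HSystem × HSystem) × ℕ => sk (τ p) := hsk.comp hτ
    exact Primrec.not.to_comp.comp h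
  have ht : Computable₂ fun s k => t₁ s k || t₂ s k :=
    Primrec.or.to_comp.comp ht₁ ht₂
  have hskτ : ∀ q, sk (τ q) = true ↔ ∃ n, lrs (τ q).1 (τ q).2 n = 0 := by
    intro q
    have h := congrFun hsk' (τ q)
    simp only [eq_iff_iff] at h
    rw [← h]
    exact ⟨fun h => h.2.2, fun h => ⟨(hlen q).1, (hlen q).2, h⟩⟩
  refine ⟨fun s => (Nat.rfind fun k => Part.some (t₁ s k || t₂ s k)).map fun k => t₁ s k,
    (Partrec.rfind ht.partrec₂).map ht₁, fun S S' hS hS' => ⟨fun hE => ?_, fun hE => ?_⟩⟩
  · have h2 : ∀ k, t₂ (S, S') k = false := by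
      intro k
      have := (hskτ ((S, S'), k)).2 ((hred S S' hS hS').1 hE k)
      simp [t₂, this]
    obtain ⟨n, hn⟩ := hE
    have h1 : (t₁ (S, S') n || t₂ (S, S') n) = true := by simp [t₁, hn]
    obtain ⟨k, hk, _⟩ := Nat.rfind_min' (p := fun k => t₁ (S, S') k || t₂ (S, S') k) h1
    refine Part.mem_map_iff _ |>.2 ⟨k, hk, ?_⟩
    have h3 : true ∈ Part.some (t₁ (S, S') k || t₂ (S, S') k) := Nat.rfind_spec hk
    rw [Part.mem_some_iff, h2 k, Bool.or_false] at h3
    exact h3.symm
  · have h1 : ∀ k, t₁ (S, S') k = false := by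
      intro k
      simp only [t₁, decide_eq_false_iff_not]
      exact fun h => hE ⟨k, h⟩
    obtain ⟨m, hm⟩ : ∃ m, ¬ ∃ n, lrs (τ ((S, S'), m)).1 (τ ((S, S'), m)).2 n = 0 := by
      by_contra hcon
      push Not at hcon
      exact hE ((hred S S' hS hS').2 hcon)
    have h2 : (t₁ (S, S') m || t₂ (S, S') m) = true := by
      have : sk (τ ((S, S'), m)) ≠ true := fun h => hm ((hskτ _).1 h)
      simp only [Bool.not_eq_true] at this
      simp [t₂, this]
    obtain ⟨k, hk, _⟩ := Nat.rfind_min' (p := fun k => t₁ (S, S') k || t₂ (S, S') k) h2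
    exact Part.mem_map_iff _ |>.2 ⟨k, hk, h1 k⟩

end Pool.Agent.Work.MP_4cd38d_lc
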