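import Mathlib

set_option autoImplicit false

/-!
Upper Banach density zero.
-/

namespace Pool.Agent.Work.MP_4cd38d_lc

/-- `S` has upper Banach density zero: for every `ε > 0`, all sufficiently long intervals `[a, a+L)`
contain at most `ε L` elements of `S`. -/
def BanachZero (S : Set ℕ) : Prop :=
  ∀ ε : ℝ, 0 < ε → ∃ L₀ : ℕ, ∀ L ≥ L₀, ∀ a : ℕ, ((S ∩ Set.Ico a (a + L)).ncard : ℝ) ≤ ε * L

end Pool.Agent.Work.MP_4cd38d_lc
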