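import Mathlib
import Pool.Agent.Work.MP_4cd38d_lc.DefsBanach

set_option autoImplicit false

/-!
Sets of upper Banach density zero, and the dynamical Mordell–Lang theorem for Noetherian spaces
(Bell–Ghioca–Tucker).
-/

namespace Pool.Agent.Work.MP_4cd38d_lc

lemma banachZero_iff (S : Set ℕ) : BanachZero S ↔
    ∀ K : ℕ, ∃ L₀ : ℕ, ∀ L ≥ L₀, ∀ a : ℕ, K * (S ∩ Set.Ico a (a + L)).ncard ≤ L := by
  constructor
  · intro h K
    rcases Nat.eq_zero_or_pos K with rfl | hK
    · exact ⟨0, fun L _ a => by simp⟩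
    · obtain ⟨L₀, hL₀⟩ := h (1 / K) (by positivity)
      refine ⟨L₀, fun L hL a => ?_⟩
      have h1 := hL₀ L hL a
      rw [one_div_mul_eq_div, le_div_iff₀ (by exact_mod_cast hK)] at h1
      have h2 : (S ∩ Set.Ico a (a + L)).ncard * K ≤ L := by exact_mod_cast h1
      linarith [mul_comm K (S ∩ Set.Ico a (a + L)).ncard]
  · intro h ε hε
    obtain ⟨K, hK⟩ := exists_nat_gt (1 / ε)
    obtain ⟨L₀, hL₀⟩ := h K
    refine ⟨L₀, fun L hL a => ?_⟩
    have h1 : ((K * (S ∩ Set.Ico a (a + L)).ncard : ℕ) : ℝ) ≤ (L : ℝ) := by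
      exact_mod_cast hL₀ L hL a
    push_cast at h1
    have h2 : 1 ≤ ε * K := by
      rw [div_lt_iff₀ hε] at hK
      linarith [mul_comm (K : ℝ) ε]
    have h3 : (0 : ℝ) ≤ ((S ∩ Set.Ico a (a + L)).ncard : ℝ) := Nat.cast_nonneg _
    calc ((S ∩ Set.Ico a (a + L)).ncard : ℝ)
        ≤ (ε * K) * ((S ∩ Set.Ico a (a + L)).ncard : ℝ) := le_mul_of_one_le_left h3 h2
      _ = ε * (K * ((S ∩ Set.Ico a (a + L)).ncard : ℝ)) := by ring
      _ ≤ ε * L := mul_le_mul_of_nonneg_left h1 hε.le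

lemma finite_inter_Ico (S : Set ℕ) (a b : ℕ) : (S ∩ Set.Ico a b).Finite :=
  (Set.finite_Ico a b).subset Set.inter_subset_right

lemma BanachZero.mono {S T : Set ℕ} (h : BanachZero T) (hST : S ⊆ T) : BanachZero S := by
  intro ε hε
  obtain ⟨L₀, hL₀⟩ := h ε hε
  refine ⟨L₀, fun L hL a => le_trans ?_ (hL₀ L hL a)⟩
  exact_mod_cast Set.ncard_le_ncard (Set.inter_subset_inter_left _ hST) (finite_inter_Ico _ _ _)

lemma BanachZero.union {S T : Set ℕ} (hS : BanachZero S) (hT : BanachZero T) :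
    BanachZero (S ∪ T) := by
  intro ε hε
  obtain ⟨L₁, hL₁⟩ := hS (ε / 2) (by positivity)
  obtain ⟨L₂, hL₂⟩ := hT (ε / 2) (by positivity)
  refine ⟨max L₁ L₂, fun L hL a => ?_⟩
  have h1 := hL₁ L (le_trans (le_max_left _ _) hL) a
  have h2 := hL₂ L (le_trans (le_max_right _ _) hL) a
  have h3 : ((S ∪ T) ∩ Set.Ico a (a + L)).ncard ≤
      (S ∩ Set.Ico a (a + L)).ncard + (T ∩ Set.Ico a (a + L)).ncard := by
    rw [Set.union_inter_distrib_right]
    exact Set.ncard_union_le _ _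
  have h4 : (((S ∪ T) ∩ Set.Ico a (a + L)).ncard : ℝ) ≤
      (S ∩ Set.Ico a (a + L)).ncard + (T ∩ Set.Ico a (a + L)).ncard := by exact_mod_cast h3
  linarith

lemma banachZero_of_finite {S : Set ℕ} (hS : S.Finite) : BanachZero S := by
  intro ε hε
  obtain ⟨L₀, hL₀⟩ := exists_nat_gt (S.ncard / ε)
  refine ⟨L₀, fun L hL a => ?_⟩
  have h1 : (S ∩ Set.Ico a (a + L)).ncard ≤ S.ncard :=
    Set.ncard_le_ncard Set.inter_subset_left hS
  have h2 : ((S ∩ Set.Ico a (a + L)).ncard : ℝ) ≤ S.ncard := by exact_mod_cast h1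
  have h3 : (L₀ : ℝ) ≤ L := by exact_mod_cast hL
  rw [div_lt_iff₀ hε] at hL₀
  nlinarith

/-- Recurrence: if all the sets `S ∩ (S - k)`, `k ≥ 1`, have upper Banach density zero, so
has `S`. -/
lemma banachZero_of_shifts (S : Set ℕ)
    (h : ∀ k, 0 < k → BanachZero {n | n ∈ S ∧ n + k ∈ S}) : BanachZero S := by
  classical
  rw [banachZero_iff]
  intro K
  let m := 2 * K
  have h1 : ∀ k, ∃ L₀ : ℕ, ∀ L ≥ L₀, ∀ a : ℕ, 0 < k →
      (4 * K * m) * ({n | n ∈ S ∧ n + k ∈ S} ∩ Set.Ico a (a + L)).ncard ≤ L := by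
    intro k
    rcases Nat.eq_zero_or_pos k with hk | hk
    · exact ⟨0, fun L _ a hk' => by omega⟩
    · obtain ⟨L₀, hL₀⟩ := (banachZero_iff _).1 (h k hk) (4 * K * m)
      exact ⟨L₀, fun L hL a _ => hL₀ L hL a⟩
  choose L₁ hL₁ using h1
  refine ⟨4 * K + ∑ k ∈ Finset.Icc 1 m, L₁ k, fun L hL a => ?_⟩
  let I : Finset ℕ := Finset.Ico a (a + L)
  let T : Finset ℕ := I.filter (· ∈ S)
  let U : Finset ℕ := T.filter fun n => ∀ k ∈ Finset.Icc 1 m, n + k ∉ S
  let V : ℕ → Finset ℕ := fun k => I.filter fun n => n ∈ S ∧ n + k ∈ S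
  have hT : (S ∩ Set.Ico a (a + L)).ncard = T.card := by
    rw [← Set.ncard_coe_finset]
    congr 1
    ext n
    simp only [Set.mem_inter_iff, Set.mem_Ico, T, I, Finset.coe_filter, Finset.mem_Ico]
    constructor
    · rintro ⟨h1, h2⟩; exact ⟨h2, h1⟩
    · rintro ⟨h1, h2⟩; exact ⟨h2, h1⟩
  have hV : ∀ k ∈ Finset.Icc 1 m, (4 * K * m) * (V k).card ≤ L := by
    intro k hk
    have hk' : L₁ k ≤ L := by
      refine le_trans ?_ (le_trans (Nat.le_add_left _ _) hL)
      exact Finset.single_le_sum (fun _ _ => Nat.zero_le _) hk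
    have h2 := hL₁ k L hk' a (by rw [Finset.mem_Icc] at hk; omega)
    have h3 : ({n | n ∈ S ∧ n + k ∈ S} ∩ Set.Ico a (a + L)).ncard = (V k).card := by
      rw [← Set.ncard_coe_finset]
      congr 1
      ext n
      simp only [Set.mem_inter_iff, Set.mem_Ico, V, I, Finset.coe_filter, Finset.mem_Ico]
      constructor
      · rintro ⟨h1, h2⟩; exact ⟨h2, h1⟩
      · rintro ⟨h1, h2⟩; exact ⟨h2, h1⟩
    rw [h3] at h2
    exact h2
  have hcover : T ⊆ U ∪ (Finset.Icc 1 m).biUnion V := by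
    intro n hn
    by_cases hU : ∀ k ∈ Finset.Icc 1 m, n + k ∉ S
    · exact Finset.mem_union_left _ (Finset.mem_filter.2 ⟨hn, hU⟩)
    · push Not at hU
      obtain ⟨k, hk, hk'⟩ := hU
      apply Finset.mem_union_right
      rw [Finset.mem_biUnion]
      refine ⟨k, hk, ?_⟩
      have := Finset.mem_filter.1 hn
      exact Finset.mem_filter.2 ⟨this.1, this.2, hk'⟩
  have hTcard : T.card ≤ U.card + ∑ k ∈ Finset.Icc 1 m, (V k).card :=
    (Finset.card_le_card hcover).trans ((Finset.card_union_le _ _).trans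
      (Nat.add_le_add_left Finset.card_biUnion_le _))
  -- the elements of `U` are well separated
  have hUcard : (m + 1) * U.card ≤ L + m := by
    have hdisj : ∀ x ∈ U, ∀ y ∈ U, x ≠ y →
        Disjoint (Finset.Ico x (x + (m + 1))) (Finset.Ico y (y + (m + 1))) := by
      have key : ∀ x ∈ U, ∀ y ∈ U, x < y → x + (m + 1) ≤ y := by
        intro x hx y hy hxy
        by_contra hlt
        push Not at hlt
        have hx2 := (Finset.mem_filter.1 hx).2 (y - x) (Finset.mem_Icc.2 ⟨by omega, by omega⟩)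
        have hy2 := (Finset.mem_filter.1 (Finset.mem_filter.1 hy).1).2
        rw [Nat.add_sub_cancel' hxy.le] at hx2
        exact hx2 hy2
      intro x hx y hy hxy
      rw [Finset.disjoint_left]
      intro z hz1 hz2
      rw [Finset.mem_Ico] at hz1 hz2
      rcases lt_or_gt_of_ne hxy with h | h
      · have := key x hx y hy h; omega
      · have := key y hy x hx h; omega
    have h1 := Finset.card_biUnion hdisj
    simp only [Nat.card_Ico, add_tsub_cancel_left, Finset.sum_const, smul_eq_mul] at h1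
    have h2 : U.biUnion (fun x => Finset.Ico x (x + (m + 1))) ⊆ Finset.Ico a (a + L + m) := by
      intro z hz
      rw [Finset.mem_biUnion] at hz
      obtain ⟨x, hx, hz⟩ := hz
      have hx' := (Finset.mem_filter.1 (Finset.mem_filter.1 hx).1).1
      simp only [I, Finset.mem_Ico] at hx' hz ⊢
      omega
    have h3 := Finset.card_le_card h2
    rw [h1, Nat.card_Ico] at h3
    have : a + L + m - a = L + m := by omega
    rw [this, mul_comm] at h3
    exact h3
  rw [hT]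
  rcases Nat.eq_zero_or_pos K with hK | hK
  · simp [hK]
  have hm : 0 < m := by omega
  have hsum : 4 * K * ∑ k ∈ Finset.Icc 1 m, (V k).card ≤ L := by
    have h1 : ∑ k ∈ Finset.Icc 1 m, (4 * K * m) * (V k).card ≤ ∑ k ∈ Finset.Icc 1 m, L :=
      Finset.sum_le_sum hV
    rw [← Finset.mul_sum, Finset.sum_const, Nat.card_Icc, smul_eq_mul, Nat.add_sub_cancel] at h1
    have h2 : m * (4 * K * ∑ k ∈ Finset.Icc 1 m, (V k).card) ≤ m * L := by
      calc m * (4 * K * ∑ k ∈ Finset.Icc 1 m, (V k).card)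
          = 4 * K * m * ∑ k ∈ Finset.Icc 1 m, (V k).card := by ring
        _ ≤ m * L := h1
    exact Nat.le_of_mul_le_mul_left h2 hm
  have hLK : 4 * K ≤ L := le_trans (Nat.le_add_right _ _) hL
  have h5 : 4 * K * T.card ≤ 4 * L := by
    calc 4 * K * T.card ≤ 4 * K * (U.card + ∑ k ∈ Finset.Icc 1 m, (V k).card) :=
          Nat.mul_le_mul_left _ hTcard
      _ = 2 * (m * U.card) + 4 * K * ∑ k ∈ Finset.Icc 1 m, (V k).card := by
          simp only [m]; ring
      _ ≤ 2 * (L + m) + L := by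
          have : m * U.card ≤ (m + 1) * U.card := Nat.mul_le_mul_right _ (Nat.le_succ _)
          omega
      _ ≤ 4 * L := by omega
  have : 4 * (K * T.card) ≤ 4 * L := by rw [← mul_assoc]; exact h5
  omega

end Pool.Agent.Work.MP_4cd38d_lc
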