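import Mathlib
import Pool.Agent.Work.MP_4cd38d_lc.Banach

set_option autoImplicit false

/-!
The dynamical Mordell–Lang theorem for Noetherian spaces (Bell–Ghioca–Tucker).
-/

namespace Pool.Agent.Work.MP_4cd38d_lc

open TopologicalSpace

/-- `S` is the union of finitely many arithmetic progressions `{a + b j : j ≥ 0}`, `b > 0`, and a
set of upper Banach density zero. -/
def APsAndBanachZero (S : Set ℕ) : Prop :=
  ∃ F : Finset (ℕ × ℕ), (∀ q ∈ F, 0 < q.2) ∧ ∃ T : Set ℕ, BanachZero T ∧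
    S = {n | ∃ q ∈ F, ∃ j, n = q.1 + q.2 * j} ∪ T

lemma APsAndBanachZero.union {S T : Set ℕ} (hS : APsAndBanachZero S) (hT : APsAndBanachZero T) :
    APsAndBanachZero (S ∪ T) := by
  classical
  obtain ⟨F, hF, S', hS', rfl⟩ := hS
  obtain ⟨G, hG, T', hT', rfl⟩ := hT
  refine ⟨F ∪ G, ?_, S' ∪ T', hS'.union hT', ?_⟩
  · intro q hq
    rcases Finset.mem_union.1 hq with h | h
    · exact hF q h
    · exact hG q h
  · ext n
    simp only [Set.mem_union, Set.mem_ofPred_eq, Finset.mem_union]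
    constructor
    · rintro ((⟨q, hq, j, hj⟩ | h) | (⟨q, hq, j, hj⟩ | h))
      · exact Or.inl ⟨q, Or.inl hq, j, hj⟩
      · exact Or.inr (Or.inl h)
      · exact Or.inl ⟨q, Or.inr hq, j, hj⟩
      · exact Or.inr (Or.inr h)
    · rintro (⟨q, hq | hq, j, hj⟩ | (h | h))
      · exact Or.inl (Or.inl ⟨q, hq, j, hj⟩)
      · exact Or.inr (Or.inl ⟨q, hq, j, hj⟩)
      · exact Or.inl (Or.inr h)
      · exact Or.inr (Or.inr h)

lemma apsAndBanachZero_of_banachZero {S : Set ℕ} (hS : BanachZero S) : APsAndBanachZero S :=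
  ⟨∅, by simp, S, hS, by simp⟩

/-- A set closed under adding `k > 0` is a finite union of progressions. -/
lemma apsAndBanachZero_of_shift {S : Set ℕ} (k : ℕ) (hk : 0 < k) (h : ∀ n ∈ S, n + k ∈ S) :
    APsAndBanachZero S := by
  classical
  have hadd : ∀ n ∈ S, ∀ j, n + k * j ∈ S := by
    intro n hn j
    induction j with
    | zero => simpa using hn
    | succ j ih =>
      have := h _ ih
      rw [mul_add, mul_one, ← add_assoc]
      exact this
  let C : Finset ℕ := (Finset.range k).filter fun c => ∃ n ∈ S, n % k = c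
  have hC : ∀ c, c ∈ C → ∃ n, n ∈ S ∧ n % k = c := fun c hc => by
    obtain ⟨_, n, hn, hnc⟩ := Finset.mem_filter.1 hc
    exact ⟨n, hn, hnc⟩
  let f : ℕ → ℕ := fun c => sInf {n | n ∈ S ∧ n % k = c}
  refine ⟨C.image fun c => (f c, k), ?_, ∅, banachZero_of_finite Set.finite_empty, ?_⟩
  · intro q hq
    obtain ⟨c, _, rfl⟩ := Finset.mem_image.1 hq
    exact hk
  · ext n
    simp only [Set.union_empty, Set.mem_ofPred_eq, Finset.mem_image]
    constructor
    · intro hn
      have hnC : n % k ∈ C := Finset.mem_filter.2 ⟨Finset.mem_range.2 (Nat.mod_lt _ hk), n, hn, rfl⟩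
      have h1 : f (n % k) ∈ {m | m ∈ S ∧ m % k = n % k} := Nat.sInf_mem ⟨n, hn, rfl⟩
      have h2 : f (n % k) ≤ n := Nat.sInf_le ⟨hn, rfl⟩
      obtain ⟨j, hj⟩ := (Nat.modEq_iff_dvd' h2).1 h1.2
      exact ⟨_, ⟨n % k, hnC, rfl⟩, j, by simp only; omega⟩
    · rintro ⟨q, ⟨c, hc, rfl⟩, j, rfl⟩
      have h1 : f c ∈ {m | m ∈ S ∧ m % k = c} := Nat.sInf_mem (hC c hc)
      exact hadd _ h1.1 j

/-- The dynamical Mordell–Lang theorem for Noetherian spaces (Bell–Ghioca–Tucker). -/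
theorem noeth {X : Type*} [TopologicalSpace X] [NoetherianSpace X] (f : X → X)
    (hf : Continuous f) (x₀ : X) (Y : Closeds X) :
    APsAndBanachZero {n | f^[n] x₀ ∈ Y} := by
  classical
  have hwf : WellFounded ((· < ·) : Closeds X → Closeds X → Prop) :=
    (inferInstance : WellFoundedLT (Closeds X)).wf
  induction Y using hwf.induction with
  | _ Y ih =>
  by_cases ha : BanachZero {n | f^[n] x₀ ∈ Y}
  · exact apsAndBanachZero_of_banachZero ha
  -- reduction to proper closed subsets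
  by_cases hb : ∃ Y' : Closeds X, Y' < Y ∧ ∃ m, ∀ n ≥ m, f^[n] x₀ ∈ Y → f^[n] x₀ ∈ Y'
  · obtain ⟨Y', hY', m, hm⟩ := hb
    have h1 := ih Y' hY'
    have h2 : {n | f^[n] x₀ ∈ Y} = {n | f^[n] x₀ ∈ Y'} ∪ {n | n < m ∧ f^[n] x₀ ∈ Y} := by
      ext n
      simp only [Set.mem_ofPred_eq, Set.mem_union]
      constructor
      · intro hn
        rcases lt_or_ge n m with h | h
        · exact Or.inr ⟨h, hn⟩
        · exact Or.inl (hm n h hn)
      · rintro (h | h)
        · exact hY'.le h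
        · exact h.2
    rw [h2]
    apply h1.union
    apply apsAndBanachZero_of_banachZero
    apply banachZero_of_finite
    exact (Set.finite_lt_nat m).subset fun n hn => hn.1
  by_cases hc : ∃ Y₁ Y₂ : Closeds X, Y₁ < Y ∧ Y₂ < Y ∧ Y = Y₁ ⊔ Y₂
  · obtain ⟨Y₁, Y₂, h1, h2, h3⟩ := hc
    have h4 : {n | f^[n] x₀ ∈ Y} = {n | f^[n] x₀ ∈ Y₁} ∪ {n | f^[n] x₀ ∈ Y₂} := by
      ext n
      rw [h3]
      rfl
    rw [h4]
    exact (ih Y₁ h1).union (ih Y₂ h2)
  -- the main case
  push Not at hb hc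
  obtain ⟨Y₀, ⟨hY₀Y, hY₀⟩, hmin⟩ := hwf.has_min
    {Y' : Closeds X | Y' ≤ Y ∧ ¬ BanachZero {n | f^[n] x₀ ∈ Y'}} ⟨Y, le_rfl, ha⟩
  obtain ⟨k, hk, hk'⟩ : ∃ k, 0 < k ∧
      ¬ BanachZero {n | n ∈ {n | f^[n] x₀ ∈ Y₀} ∧ n + k ∈ {n | f^[n] x₀ ∈ Y₀}} := by
    by_contra hcon
    push Not at hcon
    exact hY₀ (banachZero_of_shifts _ hcon)
  have hfk : ∀ j, Continuous (f^[j]) := fun j => hf.iterate j
  -- `f^k Y₀ ⊆ Y₀`
  have hinv : ∀ x ∈ Y₀, f^[k] x ∈ Y₀ := by
    let Y₁ : Closeds X := Y₀ ⊓ ⟨(f^[k]) ⁻¹' Y₀, Y₀.isClosed.preimage (hfk k)⟩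
    have hle : Y₁ ≤ Y₀ := inf_le_left
    have hS : {n | f^[n] x₀ ∈ Y₁} =
        {n | n ∈ {n | f^[n] x₀ ∈ Y₀} ∧ n + k ∈ {n | f^[n] x₀ ∈ Y₀}} := by
      ext n
      have : f^[n + k] x₀ = f^[k] (f^[n] x₀) := by
        rw [add_comm, Function.iterate_add_apply]
      simp only [Set.mem_ofPred_eq, this]
      exact Iff.rfl
    have hnot : ¬ Y₁ < Y₀ := hmin Y₁ ⟨hle.trans hY₀Y, by rw [hS]; exact hk'⟩
    have heq : Y₁ = Y₀ := by
      by_contra hne
      exact hnot (lt_of_le_of_ne hle hne)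
    intro x hx
    rw [← heq] at hx
    exact hx.2
  obtain ⟨n₁, hn₁⟩ : ∃ n, f^[n] x₀ ∈ Y₀ := by
    by_contra hcon
    push Not at hcon
    apply hY₀
    have : {n | f^[n] x₀ ∈ Y₀} = ∅ := by
      ext n
      simp only [Set.mem_ofPred_eq, Set.mem_empty_iff_false, iff_false]
      exact hcon n
    rw [this]
    exact banachZero_of_finite Set.finite_empty
  have horb : ∀ j, f^[n₁ + k * j] x₀ ∈ Y₀ := by
    intro j
    induction j with
    | zero => simpa using hn₁
    | succ j ihj =>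
      have : n₁ + k * (j + 1) = k + (n₁ + k * j) := by ring
      rw [this, Function.iterate_add_apply]
      exact hinv _ ihj
  -- the closed sets `closure (f^r Y₀)`
  let Q : ℕ → Closeds X := fun r => ⟨closure (f^[r] '' Y₀), isClosed_closure⟩
  have hcov : ∀ n ≥ n₁, ∃ r < k, f^[n] x₀ ∈ Q r := by
    intro n hn
    refine ⟨(n - n₁) % k, Nat.mod_lt _ hk, ?_⟩
    apply subset_closure
    refine ⟨f^[n₁ + k * ((n - n₁) / k)] x₀, horb _, ?_⟩
    rw [← Function.iterate_add_apply]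
    congr 1
    have := Nat.div_add_mod (n - n₁) k
    omega
  -- some `Q r` contains `Y`
  have hirr : ∀ m, Y ≤ (Finset.range m).sup Q → ∃ r < m, Y ≤ Q r := by
    intro m
    induction m with
    | zero =>
      intro hY
      exfalso
      apply ha
      have : {n | f^[n] x₀ ∈ Y} = ∅ := by
        ext n
        simp only [Set.mem_ofPred_eq, Set.mem_empty_iff_false, iff_false]
        intro hn
        have h1 := hY hn
        simp only [Finset.range_zero, Finset.sup_empty] at h1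
        exact h1
      rw [this]
      exact banachZero_of_finite Set.finite_empty
    | succ m ihm =>
      intro hY
      rw [Finset.range_add_one, Finset.sup_insert] at hY
      by_cases h1 : Y ≤ Q m
      · exact ⟨m, Nat.lt_succ_self m, h1⟩
      by_cases h2 : Y ≤ (Finset.range m).sup Q
      · obtain ⟨r, hr, hr'⟩ := ihm h2
        exact ⟨r, Nat.lt_succ_of_lt hr, hr'⟩
      exfalso
      refine hc (Y ⊓ Q m) (Y ⊓ (Finset.range m).sup Q) ?_ ?_ ?_
      · exact lt_of_le_of_ne inf_le_left fun h => h1 (by rw [← h]; exact inf_le_right)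
      · exact lt_of_le_of_ne inf_le_left fun h => h2 (by rw [← h]; exact inf_le_right)
      · rw [← inf_sup_left]
        exact (inf_eq_left.2 hY).symm
  obtain ⟨r, hr, hYr⟩ : ∃ r < k, Y ≤ Q r := by
    apply hirr k
    by_contra hcon
    have hlt : Y ⊓ (Finset.range k).sup Q < Y :=
      lt_of_le_of_ne inf_le_left fun h => hcon (by rw [← h]; exact inf_le_right)
    obtain ⟨n, hn, h1, h2⟩ := hb _ hlt n₁
    apply h2
    obtain ⟨r, hr, hr'⟩ := hcov n hn
    refine ⟨h1, ?_⟩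
    have h3 : Q r ≤ (Finset.range k).sup Q := Finset.le_sup (Finset.mem_range.2 hr)
    exact h3 hr'
  have hmap : ∀ x ∈ Y, f^[k - r] x ∈ Y := by
    intro x hx
    apply hY₀Y
    have h1 : x ∈ closure (f^[r] '' Y₀) := hYr hx
    have h2 : Set.MapsTo (f^[k - r]) (f^[r] '' Y₀) Y₀ := by
      rintro _ ⟨y, hy, rfl⟩
      rw [← Function.iterate_add_apply, Nat.sub_add_cancel hr.le]
      exact hinv y hy
    have h3 := h2.closure (hfk (k - r)) h1
    rwa [Y₀.isClosed.closure_eq] at h3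
  apply apsAndBanachZero_of_shift (k - r) (by omega)
  intro n hn
  simp only [Set.mem_ofPred_eq] at hn ⊢
  rw [add_comm, Function.iterate_add_apply]
  exact hmap _ hn

end Pool.Agent.Work.MP_4cd38d_lc
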