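import Mathlib
import Pool.Agent.Work.MP_4cd38d_lc.Defs
import Pool.Agent.Work.MP_4cd38d_lc.Noeth

set_option autoImplicit false

/-!
HD0L sequences as orbits of a point of a Noetherian space.
-/

namespace Pool.Agent.Work.MP_4cd38d_lc

open MvPolynomial

section

variable {C D : Type*} {R : Type*} [CommRing R]

/-- Product of the multipliers of the letters of a word. -/
def al (α : C → R) : List C → R
  | [] => 1
  | s :: w => α s * al α w

/-- Translation part of the affine map attached to a word. -/
def be (α β : C → R) : List C → R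
  | [] => 0
  | s :: w => β s + α s * be α β w

lemma al_append (α : C → R) (v w : List C) : al α (v ++ w) = al α v * al α w := by
  induction v with
  | nil => simp [al]
  | cons s v ih => simp [al, ih, mul_assoc]

lemma be_append (α β : C → R) (v w : List C) :
    be α β (v ++ w) = be α β v + al α v * be α β w := by
  induction v with
  | nil => simp [al, be]
  | cons s v ih => simp only [List.cons_append, al, be, ih]; ring

lemma al_flatMap (α : D → R) (g : C → List D) (w : List C) :
    al α (w.flatMap g) = al (fun s => al α (g s)) w := by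
  induction w with
  | nil => rfl
  | cons s w ih => rw [List.flatMap_cons, al_append, ih, al]

lemma be_flatMap (α β : D → R) (g : C → List D) (w : List C) :
    be α β (w.flatMap g) = be (fun s => al α (g s)) (fun s => be α β (g s)) w := by
  induction w with
  | nil => rfl
  | cons s w ih => rw [List.flatMap_cons, be_append, ih, be]

lemma map_al {S : Type*} [CommRing S] (φ : R →+* S) (α : C → R) (w : List C) :
    φ (al α w) = al (fun s => φ (α s)) w := by
  induction w with
  | nil => simp [al]
  | cons s w ih => simp [al, ih]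

lemma map_be {S : Type*} [CommRing S] (φ : R →+* S) (α β : C → R) (w : List C) :
    φ (be α β w) = be (fun s => φ (α s)) (fun s => φ (β s)) w := by
  induction w with
  | nil => simp [be]
  | cons s w ih => simp [be, ih]

lemma al_const (q : R) (w : List C) : al (fun _ => q) w = q ^ w.length := by
  induction w with
  | nil => simp [al]
  | cons s w ih => simp [al, ih, pow_succ']

lemma be_ofDigits (q : ℕ) (d : C → ℕ) (w : List C) :
    be (R := ℤ) (fun _ => (q : ℤ)) (fun s => (d s : ℤ)) w = (Nat.ofDigits q (w.map d) : ℕ) := by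
  induction w with
  | nil => simp [be]
  | cons s w ih =>
    rw [be, ih, List.map_cons, Nat.ofDigits_cons]
    push_cast
    ring

end

/-- The affine representation over `ℤ` is faithful on words. -/
lemma word_ext {Γ : Type*} [Fintype Γ] :
    ∃ (q : ℕ) (d : Γ → ℕ), ∀ w w' : List Γ,
      al (R := ℤ) (fun _ => (q : ℤ)) w = al (R := ℤ) (fun _ => (q : ℤ)) w' →
      be (R := ℤ) (fun _ => (q : ℤ)) (fun s => (d s : ℤ)) w =
        be (R := ℤ) (fun _ => (q : ℤ)) (fun s => (d s : ℤ)) w' → w = w' := by
  classical
  let e : Γ ≃ Fin (Fintype.card Γ) := Fintype.equivFin Γ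
  refine ⟨Fintype.card Γ + 2, fun s => (e s : ℕ), ?_⟩
  intro w w' h1 h2
  rw [al_const, al_const] at h1
  rw [be_ofDigits, be_ofDigits] at h2
  have h3 : w.length = w'.length := by
    have : (Fintype.card Γ + 2) ^ w.length = (Fintype.card Γ + 2) ^ w'.length := by
      exact_mod_cast h1
    exact Nat.pow_right_injective (by omega) this
  have h4 : Nat.ofDigits (Fintype.card Γ + 2) (w.map fun s => (e s : ℕ)) =
      Nat.ofDigits (Fintype.card Γ + 2) (w'.map fun s => (e s : ℕ)) := by exact_mod_cast h2
  have hlt : ∀ v : List Γ, ∀ l ∈ v.map (fun s => (e s : ℕ)), l < Fintype.card Γ + 2 := by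
    intro v l hl
    obtain ⟨s, _, rfl⟩ := List.mem_map.1 hl
    have := (e s).2
    omega
  have h5 := Nat.ofDigits_inj_of_len_eq (by omega) (by simp [h3]) (hlt w) (hlt w') h4
  have hinj : Function.Injective fun s : Γ => (e s : ℕ) := fun a b hab =>
    e.injective (Fin.ext hab)
  exact (List.map_injective_iff.2 hinj) h5

/-- The one-system form: the indices at which two start words give the same word. -/
lemma one_system {C Γ : Type*} [Fintype C] [Fintype Γ] (g : C → List C) (G : C → List Γ)
    (u v : List C) : APsAndBanachZero {n | hd0l g G u n = hd0l g G v n} := by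
  classical
  obtain ⟨q, d, hqd⟩ := word_ext (Γ := Γ)
  let R := MvPolynomial (C ⊕ C) ℤ
  let α : C → R := fun s => X (Sum.inl s)
  let β : C → R := fun s => X (Sum.inr s)
  let F : R →+* R := (aeval (R := ℤ) (Sum.elim (fun s => al α (g s)) (fun s => be α β (g s))) :
    R →ₐ[ℤ] R).toRingHom
  let ev : R →+* ℤ := (aeval (R := ℤ) (Sum.elim
    (fun s => al (R := ℤ) (fun _ => (q : ℤ)) (G s))
    (fun s => be (R := ℤ) (fun _ => (q : ℤ)) (fun s => (d s : ℤ)) (G s))) : R →ₐ[ℤ] ℤ).toRingHom
  have hFα : ∀ s, F (α s) = al α (g s) := fun s => MvPolynomial.aeval_X _ _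
  have hFβ : ∀ s, F (β s) = be α β (g s) := fun s => MvPolynomial.aeval_X _ _
  have hevα : ∀ s, ev (α s) = al (R := ℤ) (fun _ => (q : ℤ)) (G s) :=
    fun s => MvPolynomial.aeval_X _ _
  have hevβ : ∀ s, ev (β s) = be (R := ℤ) (fun _ => (q : ℤ)) (fun s => (d s : ℤ)) (G s) :=
    fun s => MvPolynomial.aeval_X _ _
  have hFal : ∀ w, F (al α w) = al α (w.flatMap g) := by
    intro w; rw [map_al, al_flatMap]; simp only [hFα]
  have hFbe : ∀ w, F (be α β w) = be α β (w.flatMap g) := by
    intro w; rw [map_be, be_flatMap]; simp only [hFα, hFβ]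
  have hFal' : ∀ n w, F^[n] (al α w) = al α ((fun w : List C => w.flatMap g)^[n] w) := by
    intro n
    induction n with
    | zero => intro w; rfl
    | succ n ih => intro w; rw [Function.iterate_succ_apply, hFal, ih, ← Function.iterate_succ_apply]
  have hFbe' : ∀ n w, F^[n] (be α β w) = be α β ((fun w : List C => w.flatMap g)^[n] w) := by
    intro n
    induction n with
    | zero => intro w; rfl
    | succ n ih => intro w; rw [Function.iterate_succ_apply, hFbe, ih, ← Function.iterate_succ_apply]
  let f : PrimeSpectrum R → PrimeSpectrum R := PrimeSpectrum.comap F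
  let x₀ : PrimeSpectrum R := ⟨RingHom.ker ev, RingHom.ker_isPrime ev⟩
  have hmem : ∀ n P, P ∈ (f^[n] x₀).asIdeal ↔ ev (F^[n] P) = 0 := by
    intro n
    induction n with
    | zero => intro P; exact RingHom.mem_ker
    | succ n ih =>
      intro P
      rw [Function.iterate_succ_apply', Function.iterate_succ_apply]
      exact ih (F P)
  let Y : TopologicalSpace.Closeds (PrimeSpectrum R) :=
    ⟨PrimeSpectrum.zeroLocus {al α u - al α v, be α β u - be α β v},
      PrimeSpectrum.isClosed_zeroLocus _⟩
  have h := noeth f (PrimeSpectrum.continuous_comap F) x₀ Y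
  have hset : {n | hd0l g G u n = hd0l g G v n} = {n | f^[n] x₀ ∈ Y} := by
    ext n
    have h1 : f^[n] x₀ ∈ Y ↔ (al α u - al α v ∈ (f^[n] x₀).asIdeal ∧
        be α β u - be α β v ∈ (f^[n] x₀).asIdeal) := by
      change f^[n] x₀ ∈ PrimeSpectrum.zeroLocus _ ↔ _
      rw [PrimeSpectrum.mem_zeroLocus, Set.insert_subset_iff, Set.singleton_subset_iff]
      rfl
    rw [Set.mem_ofPred_eq, Set.mem_ofPred_eq, h1, hmem, hmem]
    have hev1 : ∀ w, ev (F^[n] (al α w)) = al (R := ℤ) (fun _ => (q : ℤ)) (hd0l g G w n) := by
      intro w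
      rw [hFal', map_al, hd0l, al_flatMap]
      simp only [hevα]
    have hev2 : ∀ w, ev (F^[n] (be α β w)) =
        be (R := ℤ) (fun _ => (q : ℤ)) (fun s => (d s : ℤ)) (hd0l g G w n) := by
      intro w
      rw [hFbe', map_be, hd0l, be_flatMap]
      simp only [hevα, hevβ]
    rw [iterate_map_sub, iterate_map_sub, map_sub, map_sub, hev1, hev1, hev2, hev2, sub_eq_zero,
      sub_eq_zero]
    constructor
    · intro h; rw [h]; exact ⟨rfl, rfl⟩
    · rintro ⟨h1, h2⟩; exact hqd _ _ h1 h2
  rw [hset]
  exact h

/-- The set of indices at which two HD0L sequences agree is the union of finitely many arithmetic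
progressions and a set of upper Banach density zero. -/
theorem two_systems {A B Γ : Type*} [Fintype A] [Fintype B] [Fintype Γ]
    (g₁ : A → List A) (g₂ : A → List Γ) (u : List A)
    (h₁ : B → List B) (h₂ : B → List Γ) (v : List B) :
    APsAndBanachZero {n | hd0l g₁ g₂ u n = hd0l h₁ h₂ v n} := by
  let g : A ⊕ B → List (A ⊕ B) := Sum.elim (fun a => (g₁ a).map Sum.inl) fun b => (h₁ b).map Sum.inr
  let G : A ⊕ B → List Γ := Sum.elim g₂ h₂
  have h := one_system g G (u.map Sum.inl) (v.map Sum.inr)
  have h1 : ∀ (n : ℕ) (w : List A), (fun w : List (A ⊕ B) => w.flatMap g)^[n] (w.map Sum.inl) =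
      ((fun w : List A => w.flatMap g₁)^[n] w).map Sum.inl := by
    intro n
    induction n with
    | zero => intro w; rfl
    | succ n ih =>
      intro w
      rw [Function.iterate_succ_apply, Function.iterate_succ_apply, ← ih]
      congr 1
      simp [g, List.flatMap_map, List.map_flatMap]
  have h2 : ∀ (n : ℕ) (w : List B), (fun w : List (A ⊕ B) => w.flatMap g)^[n] (w.map Sum.inr) =
      ((fun w : List B => w.flatMap h₁)^[n] w).map Sum.inr := by
    intro n
    induction n with
    | zero => intro w; rfl
    | succ n ih =>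
      intro w
      rw [Function.iterate_succ_apply, Function.iterate_succ_apply, ← ih]
      congr 1
      simp [g, List.flatMap_map, List.map_flatMap]
  have h3 : ∀ n, hd0l g G (u.map Sum.inl) n = hd0l g₁ g₂ u n := by
    intro n
    unfold hd0l
    rw [h1]
    simp [G, List.flatMap_map]
  have h4 : ∀ n, hd0l g G (v.map Sum.inr) n = hd0l h₁ h₂ v n := by
    intro n
    unfold hd0l
    rw [h2]
    simp [G, List.flatMap_map]
  simp only [h3, h4] at h
  exact h

end Pool.Agent.Work.MP_4cd38d_lc
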