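import Mathlib
import Pool.Agent.Work.MP_4cd38d_lc.Defs
import Pool.Agent.Work.MP_4cd38d_lc.DefsBanach
import Pool.Agent.Work.MP_4cd38d_lc.Poly

set_option autoImplicit false

/-!
A weak Skolem–Mahler–Lech theorem for the indices at which two arbitrary HD0L sequences agree.
-/

namespace Pool.Agent.Work.MP_4cd38d_lc.AllSystems

open Pool.Agent.Work.MP_4cd38d_lc

/-- Let `w₁(n) = g₂(g₁ⁿ(u))` and `w₂(n) = h₂(h₁ⁿ(v))` be HD0L sequences over the same finite
alphabet `Γ`; the finite alphabets `A`, `B` and the morphisms are arbitrary. Then the set of all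
`n` with `w₁(n) = w₂(n)` is the union of finitely many arithmetic progressions
`{a + b j : j ≥ 0}`, `b > 0`, and a set of upper Banach density zero. -/
theorem result {A B Γ : Type*} [Fintype A] [Fintype B] [Fintype Γ]
    (g₁ : A → List A) (g₂ : A → List Γ) (u : List A)
    (h₁ : B → List B) (h₂ : B → List Γ) (v : List B) :
    ∃ F : Finset (ℕ × ℕ), (∀ q ∈ F, 0 < q.2) ∧ ∃ T : Set ℕ, BanachZero T ∧
      {n | hd0l g₁ g₂ u n = hd0l h₁ h₂ v n} = {n | ∃ q ∈ F, ∃ j, n = q.1 + q.2 * j} ∪ T :=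
  two_systems g₁ g₂ u h₁ h₂ v

end Pool.Agent.Work.MP_4cd38d_lc.AllSystems
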